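import Mathlib
import Pool.Agent.Lib.MP_16ef92_ag.ET.Fn

/-! Sheaves of functions on a family of points of a site. -/

set_option autoImplicit false

namespace Pool.Agent.Lib.MP_16ef92_ag.FT

open CategoryTheory Limits Opposite Abelian ET

noncomputable section

universe w' v u

variable {C : Type u} [Category.{v} C] {J : GrothendieckTopology C} {κ : Type}

/-- The presheaf of functions on a family of functors, with values depending on the index. -/
def fdP (T : κ → C ⥤ Type) (B : κ → Type) [∀ k, AddCommGroup (B k)] :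
    Cᵒᵖ ⥤ AddCommGrpCat.{0} where
  obj V := .of (∀ k, (T k).obj V.unop → B k)
  map f := AddCommGrpCat.ofHom
    { toFun := fun a k x => a k ((T k).map f.unop x), map_zero' := rfl, map_add' := fun _ _ => rfl }
  map_id _ := by ext a k x; simp
  map_comp _ _ := by ext a k x; simp

theorem fdP_sheaf {T : κ → C ⥤ Type} (h : ∀ k, IsPt J (T k)) (B : κ → Type)
    [∀ k, AddCommGroup (B k)] : Presheaf.IsSheaf J (fdP T B) := by
  intro E V R hR x hx
  choose Y f y h1 h2 using fun k => (h k).lift R hR
  let x' : ∀ {W : C} (g : W ⟶ V), R g → E →+ ∀ k, (T k).obj W → B k := fun g hg =>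
    AddCommGrpCat.Hom.hom (x g hg)
  have key : ∀ (k) {W : C} (g : W ⟶ V) (hg : R g) (z : (T k).obj W) (a : E),
      x' (f k ((T k).map g z)) (h1 _ _) a k (y k _) = x' g hg a k z := fun k W g hg z a => by
    obtain ⟨W', b, b', t, e1, e2, e3⟩ := (h k).pair _ _ _ _ (h2 k ((T k).map g z))
    have : x' _ (h1 _ _) a k ((T k).map b t) = x' g hg a k ((T k).map b' t) :=
      congrArg (fun φ : E ⟶ (fdP T B).obj (op W') => φ a k t) (hx b b' (h1 _ _) hg e1)
    rwa [e2, e3] at this
  let s₀ : E →+ ∀ k, (T k).obj V → B k :=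
    { toFun := fun a k t => x' (f k t) (h1 k t) a k (y k t)
      map_zero' := funext fun k => funext fun t => by rw [map_zero]; rfl
      map_add' := fun a b => funext fun k => funext fun t => by rw [map_add]; rfl }
  refine ⟨AddCommGrpCat.ofHom s₀, fun W g hg => AddCommGrpCat.ext fun a => funext fun k =>
      funext fun z => key k g hg z a,
    fun s hs => AddCommGrpCat.ext fun a => funext fun k => funext fun t => ?_⟩
  exact (congrArg (AddCommGrpCat.Hom.hom s a k) (h2 k t).symm).trans
    (congrArg (fun φ : E ⟶ (fdP T B).obj (op (Y k t)) => φ a k (y k t)) (hs (f k t) (h1 k t)))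

/-- The sheaf of functions on a family of points. -/
def fdS (Φ : κ → J.Point.{0}) (B : κ → Type) [∀ k, AddCommGroup (B k)] :
    Sheaf J AddCommGrpCat.{0} := ⟨fdP (fun k => (Φ k).fiber) B, fdP_sheaf (fun k => isPt_point (Φ k)) B⟩

/-- Change of the values. -/
def fdM (Φ : κ → J.Point.{0}) {B B' : κ → Type} [∀ k, AddCommGroup (B k)]
    [∀ k, AddCommGroup (B' k)] (φ : ∀ k, B k →+ B' k) : fdS Φ B ⟶ fdS Φ B' :=
  mkH (fun V => AddMonoidHom.pi fun k => ((φ k).compLeft ((Φ k).fiber.obj V)).comp
    (Pi.evalAddMonoidHom _ k)) fun _ _ => rfl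

variable [LocallySmall.{0} C]

theorem fdS_injective (Φ : κ → J.Point.{0}) (I : κ → Type) [∀ k, AddCommGroup (I k)]
    [∀ k, DivisibleBy (I k) ℤ] : Injective (fdS Φ I) where
  factors {A B} g f _ := by
    have := fun k => AddCommGrpCat.injective_of_divisible (I k)
    have : ∀ k, Mono ((Φ k).presheafFiber.map f.hom) := fun k =>
      inferInstanceAs (Mono ((Φ k).sheafFiber.map f))
    let φ : ∀ k, (Φ k).presheafFiber.obj A.obj ⟶ AddCommGrpCat.of (I k) := fun k =>
      (Φ k).presheafFiberDesc (fun X x => g.hom.app (op X) ≫ AddCommGrpCat.ofHom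
        ((Pi.evalAddMonoidHom (fun _ => I k) x).comp (Pi.evalAddMonoidHom _ k)))
      fun X Y a x => by rw [g.hom.naturality_assoc]; rfl
    let ψ := fun k => Injective.factorThru (φ k) ((Φ k).presheafFiber.map f.hom)
    refine ⟨mkH (fun X => AddMonoidHom.pi fun k => AddMonoidHom.pi fun x =>
      ((Φ k).toPresheafFiber X x B.obj ≫ ψ k).hom)
      fun a b => funext fun k => funext fun x => ?_,
      hom_ext' fun X a => funext fun k => funext fun x => ?_⟩
    · exact congrArg (ψ k) ((Φ k).toPresheafFiber_w_apply a x B.obj b)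
    · have h1 : (Φ k).toPresheafFiber X x A.obj ≫ (Φ k).presheafFiber.map f.hom ≫ ψ k = _ :=
        (congrArg _ (Injective.comp_factorThru (φ k) _)).trans
          ((Φ k).toPresheafFiber_presheafFiberDesc _ _ X x)
      rw [(Φ k).toPresheafFiber_naturality_assoc] at h1
      exact congrArg (fun t => t a) h1

variable [HasSheafify J AddCommGrpCat.{0}] [HasExt.{w'} (Sheaf J AddCommGrpCat.{0})]

theorem fdS_acyclic (Φ : κ → J.Point.{0}) {X : C} (hX : IsTerminal X)
    (B : κ → Type) [∀ k, AddCommGroup (B k)] {n : ℕ} (x : Ext (zc J) (fdS Φ B) (n + 1)) :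
    x = 0 := by
  let I := fun k => (B k →+ AddCircle (1 : ℚ)) → AddCircle (1 : ℚ)
  let i : ∀ k, B k →+ I k := fun k => AddMonoidHom.pi fun χ => χ
  have hi : ∀ k, Function.Injective (i k) := fun k => (injective_iff_map_eq_zero (i k)).2
    fun b hb => CharacterModule.eq_zero_of_character_apply fun χ => congrFun hb χ
  let : ∀ k, DivisibleBy (I k ⧸ (i k).range) ℤ := fun k =>
    (QuotientAddGroup.mk'_surjective (i k).range).divisibleBy _ fun a n => map_zsmul _ n a
  have := fdS_injective Φ I
  have := fdS_injective Φ fun k => I k ⧸ (i k).range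
  let S : ShortComplex (Sheaf J AddCommGrpCat.{0}) := .mk (fdM Φ i)
    (fdM Φ fun k => QuotientAddGroup.mk' (i k).range) (hom_ext' fun V a => funext fun k =>
      funext fun t => (QuotientAddGroup.eq_zero_iff _).2 ⟨_, rfl⟩)
  have h3 : ∀ V, Function.Surjective (S.g.hom.app V) := fun V a => by
    choose b hb using fun k t => QuotientAddGroup.mk'_surjective (i k).range (a k t)
    exact ⟨b, funext fun k => funext (hb k)⟩
  have hS : S.ShortExact := shortExact_of_app S
    (fun V a b e => funext fun k => funext fun t => hi k (congrFun (congrFun e k) t))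
    (fun V a ha => by
      choose b hb using fun k t => (QuotientAddGroup.eq_zero_iff _).1 (congrFun (congrFun ha k) t)
      exact ⟨b, funext fun k => funext (hb k)⟩) h3
  obtain ⟨y, rfl⟩ := Ext.covariant_sequence_exact₁ _ hS x (Ext.eq_zero_of_injective _) rfl
  cases n with
  | zero =>
    obtain ⟨y, rfl⟩ := (Ext.mk₀_bijective _ _).2 y
    obtain ⟨t, rfl⟩ := zc_lift hX S.g h3 y
    rw [← Ext.mk₀_comp_mk₀, Ext.comp_assoc_of_second_deg_zero, hS.comp_extClass, Ext.comp_zero]
  | succ n => rw [Ext.eq_zero_of_injective y, Ext.zero_comp]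

end

end Pool.Agent.Lib.MP_16ef92_ag.FT
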