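import Mathlib
import Pool.Agent.Lib.MP_16ef92_ag.EL.Site

/-! Affine neighbourhoods of geometric points in the small etale site. -/

set_option autoImplicit false
set_option backward.isDefEq.respectTransparency false

namespace Pool.Agent.Lib.MP_16ef92_ag.FT

open CategoryTheory Limits AlgebraicGeometry Opposite ET EL

noncomputable section

variable {R W W' : Type} [CommRing R] [CommRing W] [CommRing W'] {Ω : Type} [Field Ω]

/-- The ring map of a morphism of affine schemes. -/
def rh (w : Xs W ⟶ Xs R) : R →+* W := (Spec.preimage w).hom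

theorem spm_rh (w : Xs W ⟶ Xs R) : spm (rh w) = w := Spec.map_preimage w

theorem spm_inj {a b : R →+* W} (h : spm a = spm b) : a = b :=
  congrArg (fun t => t.hom) (Spec.map_injective h)

theorem rh_spm (a : R →+* W) : rh (spm a) = a := spm_inj (spm_rh _)

theorem rh_comp (b : W →+* W') (w : Xs W ⟶ Xs R) : rh (spm b ≫ w) = b.comp (rh w) :=
  spm_inj (by rw [spm_rh, ← spm_comp, spm_rh])

theorem spm_id : spm (RingHom.id R) = 𝟙 (Xs R) := Spec.map_id _

theorem etale_spm {a : R →+* W} : Etale (spm a) ↔ a.Etale := HasRingHomProperty.Spec_iff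

/-- An affine open neighbourhood of a point with values in a field. -/
theorem exists_open {Y : Scheme.{0}} (u : Xs Ω ⟶ Y) :
    ∃ (S : Type) (_ : CommRing S) (j : Xs S ⟶ Y) (_ : IsOpenImmersion j) (y : S →+* Ω),
      spm y ≫ j = u := by
  obtain ⟨A, j, hj, p, hp⟩ := Scheme.exists_Spec_apply_eq (u (default : Xs Ω))
  have h : Set.range u ⊆ Set.range j := by
    rintro _ ⟨a, rfl⟩
    exact ⟨p, by rw [hp, Subsingleton.elim a default]⟩
  exact ⟨A, inferInstance, j, hj, rh (IsOpenImmersion.lift j u h), by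
    rw [spm_rh]; exact IsOpenImmersion.lift_fac j u h⟩

/-- Pull an etale map back to an affine scheme, near a point. -/
theorem exists_pull {U U' : Scheme.{0}} (f : U' ⟶ U) [Etale f] (w : Xs W ⟶ U) (y : W →+* Ω)
    (u : Xs Ω ⟶ U') (h : u ≫ f = spm y ≫ w) :
    ∃ (S : Type) (_ : CommRing S) (b : W →+* S) (z : S →+* Ω) (j : Xs S ⟶ U'),
      b.Etale ∧ z.comp b = y ∧ j ≫ f = spm b ≫ w := by
  obtain ⟨S, _, j, _, z, hz⟩ := exists_open (pullback.lift u (spm y) h)
  refine ⟨S, inferInstance, rh (j ≫ pullback.snd f w), z, j ≫ pullback.fst f w,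
    etale_spm.1 (by rw [spm_rh]; infer_instance), ?_, ?_⟩
  · rw [← rh_comp, reassoc_of% hz, pullback.lift_snd, rh_spm]
  · rw [spm_rh, Category.assoc, Category.assoc, pullback.condition]

variable [IsAlgClosed Ω]

/-- Geometric points lift to covering sieves. -/
theorem exists_lift {U : (Xs R).Etale} {S : Sieve U} (hS : S ∈ (Xs R).smallEtaleTopology U)
    (u : Xs Ω ⟶ U.left) : ∃ (U' : (Xs R).Etale) (f : U' ⟶ U) (u' : Xs Ω ⟶ U'.left),
      S f ∧ u' ≫ f.left = u := by
  obtain ⟨U', f, p, hf, hp⟩ := (mem_cover S).1 hS (u (default : Xs Ω))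
  have : Etale U.hom := U.prop
  have : Etale (f.left ≫ U.hom) := by
    rw [MorphismProperty.Over.w f]
    exact U'.prop
  have : Etale f.left := Etale.of_comp f.left U.hom
  obtain ⟨u', h, -⟩ := Scheme.exists_fac_of_etale_of_isSepClosed f.left u p hp
  exact ⟨U', f, u', hf, h⟩

/-- If every prime of `R` is the kernel of a geometric point, then every point of an etale scheme
carries a geometric point. -/
theorem exists_geo (hR : ∀ P : Ideal R, P.IsPrime → ∃ x : R →+* Ω, RingHom.ker x = P)
    (U : (Xs R).Etale) (p : U.left) : ∃ u : Xs Ω ⟶ U.left, u (default : Xs Ω) = p := by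
  have : Etale U.hom := U.prop
  let P : PrimeSpectrum R := U.hom p
  obtain ⟨x, hx⟩ := hR P.asIdeal P.isPrime
  have e : U.hom p = spm x (default : Xs Ω) := by
    refine PrimeSpectrum.ext (hx.symm.trans ?_)
    have key : ∀ t : PrimeSpectrum Ω, RingHom.ker x = Ideal.comap x t.asIdeal := fun t => by
      rw [t.asIdeal.eq_bot_of_prime]
      rfl
    exact key (default : Xs Ω)
  obtain ⟨u, -, h⟩ := Scheme.exists_fac_of_etale_of_isSepClosed U.hom (spm x) p e
  exact ⟨u, h⟩

/-- A sieve covers if each geometric point of an affine chart has an etale neighbourhood in it. -/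
theorem cover_of_geo (hR : ∀ P : Ideal R, P.IsPrime → ∃ x : R →+* Ω, RingHom.ker x = P)
    {U : (Xs R).Etale} (Q : Sieve U)
    (H : ∀ (S : Type) [CommRing S] [Algebra R S] [Algebra.Etale R S] (f : Aff R S ⟶ U)
      (y : S →+* Ω), ∃ (S' : Type) (_ : CommRing S') (_ : Algebra R S') (_ : Algebra.Etale R S')
        (g : S →ₐ[R] S') (z : S' →+* Ω), z.comp (g : S →+* S') = y ∧ Q (afm g ≫ f)) :
    Q ∈ (Xs R).smallEtaleTopology U := by
  rw [mem_cover]
  intro p
  obtain ⟨u, rfl⟩ := exists_geo hR U p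
  obtain ⟨S, _, j, _, y, rfl⟩ := exists_open u
  have : Etale U.hom := U.prop
  let _ := (rh (j ≫ U.hom)).toAlgebra
  have : Algebra.Etale R S := RingHom.etale_algebraMap.1
    (etale_spm.1 (by change Etale (spm (rh _)); rw [spm_rh]; infer_instance))
  let f : Aff R S ⟶ U := MorphismProperty.Over.homMk j (spm_rh _).symm
  obtain ⟨S', _, _, _, g, z, hz, hQ⟩ := H S f y
  refine ⟨_, _, spm z (default : Xs Ω), hQ, ?_⟩
  change (spm z ≫ spm (g : S →+* S') ≫ j) (default : Xs Ω) = _
  rw [← Category.assoc, spm_comp, hz]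

end

end Pool.Agent.Lib.MP_16ef92_ag.FT
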