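import Mathlib

/-! Transport of `Ext` classes along an exact functor. -/

set_option autoImplicit false

namespace Pool.Agent.Lib.MP_16ef92_ag.FT

open CategoryTheory Limits Abelian

noncomputable section

universe w v u

variable {C : Type u} [Category.{v} C] [Abelian C] [HasExt.{w} C] {Z A A' B B' : C} {n : ℕ}

theorem ext_nat {S S' : ShortComplex C} (h : S.ShortExact) (h' : S'.ShortExact) (f : S ⟶ S')
    (η : Ext Z S.X₃ n) :
    (η.comp h.extClass rfl).comp (Ext.mk₀ f.τ₁) (add_zero _) =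
      (η.comp (Ext.mk₀ f.τ₃) (add_zero _)).comp h'.extClass rfl := by
  rw [Ext.comp_assoc_of_third_deg_zero, h.extClass_naturality h' f,
    Ext.comp_assoc_of_second_deg_zero]

variable (P : C ⥤ C) [P.Additive] [PreservesFiniteLimits P] [PreservesFiniteColimits P]
  (z : Z ⟶ P.obj Z)

/-- Transport along `P`, followed by `τ`. -/
def tact (τ : P.obj A ⟶ B) (x : Ext Z A n) : Ext Z B n :=
  (Ext.mk₀ z).comp ((x.mapExactFunctor P).comp (Ext.mk₀ τ) (add_zero n)) (zero_add n)

theorem tact_add (τ : P.obj A ⟶ B) (x y : Ext Z A n) :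
    tact P z τ (x + y) = tact P z τ x + tact P z τ y := by
  simp only [tact, Ext.mapExactFunctor_add, Ext.add_comp, Ext.comp_add]

theorem tact_mk (τ : P.obj A ⟶ B) (y : Z ⟶ A) :
    tact P z τ (Ext.mk₀ y) = Ext.mk₀ (z ≫ P.map y ≫ τ) := by
  simp only [tact, Ext.mapExactFunctor_mk₀, Ext.mk₀_comp_mk₀]

theorem tact_pre (τ : P.obj A' ⟶ B) (e : A ⟶ A') (x : Ext Z A n) :
    tact P z τ (x.comp (Ext.mk₀ e) (add_zero n)) = tact P z (P.map e ≫ τ) x := by
  rw [tact, tact, Ext.mapExactFunctor_comp, Ext.mapExactFunctor_mk₀,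
    Ext.comp_assoc_of_third_deg_zero, Ext.mk₀_comp_mk₀]

theorem tact_post (τ : P.obj A ⟶ B) (e : B ⟶ B') (x : Ext Z A n) :
    (tact P z τ x).comp (Ext.mk₀ e) (add_zero n) = tact P z (τ ≫ e) x := by
  rw [tact, tact, Ext.comp_assoc_of_third_deg_zero, Ext.comp_assoc_of_third_deg_zero,
    Ext.mk₀_comp_mk₀]

theorem tact_smul (τ : P.obj A ⟶ B) (k : ℕ) (x : Ext Z A n) :
    tact P z (k • τ) x = k • tact P z τ x := by
  induction k with
  | zero => simp [tact]
  | succ k ih =>
    rw [succ_nsmul, succ_nsmul, ← ih]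
    simp only [tact, Ext.mk₀_add, Ext.comp_add]

theorem tact_ext {S S' : ShortComplex C} (h : S.ShortExact) (h' : S'.ShortExact)
    (f : S.map P ⟶ S') (η : Ext Z S.X₃ n) :
    tact P z f.τ₁ (η.comp h.extClass rfl) = (tact P z f.τ₃ η).comp h'.extClass rfl := by
  have := ext_nat (h.map_of_exact P) h' f (η.mapExactFunctor P)
  rw [tact, tact, Ext.mapExactFunctor_comp, Ext.mapExactFunctor_extClass,
    Ext.comp_assoc (a₁₂ := n) (a₂₃ := n + 1) _ _ _ (zero_add n) rfl (by omega)]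
  exact congrArg (fun t => (Ext.mk₀ z).comp t (zero_add _)) this

end

end Pool.Agent.Lib.MP_16ef92_ag.FT
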