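import Mathlib
import Pool.Agent.Lib.MP_16ef92_ag.FT.Geo
import Pool.Agent.Lib.MP_16ef92_ag.FT.Fn
import Pool.Agent.Lib.MP_16ef92_ag.FT.Hom

/-! Etale sheaves of admissible functions on geometric points. -/

set_option autoImplicit false
set_option backward.isDefEq.respectTransparency false

namespace Pool.Agent.Lib.MP_16ef92_ag.FT

open CategoryTheory Limits AlgebraicGeometry Opposite Abelian ET EL

noncomputable section

/-- Groups of admissible functions on geometric points, for all rings over `R`. -/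
structure GD (Ω R : Type) [Field Ω] [CommRing R] where
  A : Type
  [grp : AddCommGroup A]
  Gam : ∀ {V : Type} [CommRing V], (R →+* V) → AddSubgroup ((V →+* Ω) → A)
  res : ∀ {V W : Type} [CommRing V] [CommRing W] (a : R →+* V) (b : V →+* W) (s : (V →+* Ω) → A),
    s ∈ Gam a → (fun z : W →+* Ω => s (z.comp b)) ∈ Gam (b.comp a)
  loc : ∀ {V : Type} [CommRing V] (a : R →+* V) (s : (V →+* Ω) → A),
    (∀ y : V →+* Ω, ∃ (W : Type) (_ : CommRing W) (b : V →+* W) (z : W →+* Ω), b.Etale ∧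
      z.comp b = y ∧ (fun z : W →+* Ω => s (z.comp b)) ∈ Gam (b.comp a)) → s ∈ Gam a

attribute [instance] GD.grp

variable {Ω R : Type} [Field Ω] [CommRing R] (G G' : GD Ω R)

/-- Admissible functions on a scheme over `R`. -/
def GD.sec {Y : Scheme.{0}} (h : Y ⟶ Xs R) : AddSubgroup ((Xs Ω ⟶ Y) → G.A) where
  carrier := {s | ∀ (W : Type) [CommRing W] (w : Xs W ⟶ Y),
    (fun y : W →+* Ω => s (spm y ≫ w)) ∈ G.Gam (rh (w ≫ h))}
  add_mem' := fun ha hb W _ w => (G.Gam _).add_mem (ha W w) (hb W w)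
  zero_mem' := fun _ _ _ => (G.Gam _).zero_mem
  neg_mem' := fun ha W _ w => (G.Gam _).neg_mem (ha W w)

/-- The presheaf of admissible functions. -/
def GD.psh : (Xs R).Etaleᵒᵖ ⥤ AddCommGrpCat.{0} where
  obj U := .of (G.sec U.unop.hom)
  map f := AddCommGrpCat.ofHom
    { toFun := fun s => ⟨fun p => s.1 (p ≫ f.unop.left), fun W _ w => by
        have := s.2 W (w ≫ f.unop.left)
        rw [Category.assoc, MorphismProperty.Over.w f.unop] at this
        simpa only [Category.assoc] using this⟩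
      map_zero' := rfl
      map_add' := fun _ _ => rfl }
  map_id _ := AddCommGrpCat.ext fun s => Subtype.ext (funext fun p =>
    congrArg s.1 (Category.comp_id p))
  map_comp _ _ := AddCommGrpCat.ext fun s => Subtype.ext (funext fun p =>
    congrArg s.1 (Category.assoc _ _ _).symm)

theorem ovw {U V : (Xs R).Etale} (f : V ⟶ U) {Y : Scheme.{0}} (p : Y ⟶ V.left) :
    (p ≫ f.left) ≫ U.hom = p ≫ V.hom :=
  (Category.assoc _ _ _).trans (congrArg (p ≫ ·) (MorphismProperty.Over.w f))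

theorem GD.cast {V : Type} [CommRing V] {a a' : R →+* V} {s : (V →+* Ω) → G.A} (h : s ∈ G.Gam a)
    (e : a = a') : s ∈ G.Gam a' := e ▸ h

variable [IsAlgClosed Ω]

theorem GD.isSheaf : Presheaf.IsSheaf (Xs R).smallEtaleTopology G.psh := by
  apply Presheaf.isSheaf_of_isSheaf_comp _ _ (forget AddCommGrpCat.{0})
  rw [isSheaf_iff_isSheaf_of_type]
  intro U S hS x hx
  choose Y f y h1 h2 using exists_lift (Ω := Ω) hS
  let x' : ∀ {V : (Xs R).Etale} (g : V ⟶ U), S g → G.sec V.hom := fun g hg => x g hg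
  have key : ∀ {V : (Xs R).Etale} (g : V ⟶ U) (hg : S g) (z : Xs Ω ⟶ V.left),
      (x' (f (z ≫ g.left)) (h1 _)).1 (y _) = (x' g hg).1 z := fun {V} g hg z => by
    let j := rh (z ≫ V.hom)
    have hp := (isPt_point (Scheme.pointSmallEtale (spm j))).pair (f (z ≫ g.left)) g
      (Ptv.mk (j := j) (y (z ≫ g.left)) (by
        rw [← ovw (f (z ≫ g.left)), h2, spm_rh, ovw g]))
      (Ptv.mk (j := j) z (spm_rh _).symm) (Ptv.ext (h2 _))
    obtain ⟨W', b, b', t, e1, e2, e3⟩ := hp
    have h3 : (x' _ (h1 _)).1 (Ptv.hom (j := j) t ≫ b.left) =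
        (x' g hg).1 (Ptv.hom (j := j) t ≫ b'.left) :=
      congrArg (fun s : G.sec W'.hom => s.1 (Ptv.hom (j := j) t)) (hx b b' (h1 _) hg e1)
    have e4 : Ptv.hom (j := j) t ≫ b.left = y _ := congrArg (Ptv.hom (j := j)) e2
    have e5 : Ptv.hom (j := j) t ≫ b'.left = z := congrArg (Ptv.hom (j := j)) e3
    rwa [e4, e5] at h3
  refine ⟨(⟨fun p => (x' (f p) (h1 p)).1 (y p), fun W _ w => G.loc _ _ fun q => ?_⟩ : G.sec U.hom),
    fun V g hg => Subtype.ext (funext fun z => key g hg z),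
    fun s hs => Subtype.ext (funext fun p => ?_)⟩
  · have : Etale U.hom := U.prop
    have : Etale ((f (spm q ≫ w)).left ≫ U.hom) := by
      rw [MorphismProperty.Over.w]
      exact (Y _).prop
    have : Etale (f (spm q ≫ w)).left := Etale.of_comp _ U.hom
    obtain ⟨T, _, b, z, j, hb, hz, hj⟩ := exists_pull (f (spm q ≫ w)).left w q _ (h2 _)
    refine ⟨T, inferInstance, b, z, hb, hz, ?_⟩
    have h3 := G.cast ((x' _ (h1 (spm q ≫ w))).2 T j) (a' := b.comp (rh (w ≫ U.hom))) (by
      rw [← ovw (f (spm q ≫ w)), hj, Category.assoc, rh_comp])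
    refine (congrArg (· ∈ _) (funext fun t => ?_)).mp h3
    rw [← key, Category.assoc, hj, ← Category.assoc, spm_comp]
  · exact (congrArg (Subtype.val (s : G.sec U.hom)) (h2 p).symm).trans
      (congrArg (fun t : G.sec (Y p).hom => t.1 (y p)) (hs (f p) (h1 p)))

/-- The sheaf of admissible functions. -/
def GD.sh : Sheaf (Xs R).smallEtaleTopology AddCommGrpCat.{0} := ⟨G.psh, G.isSheaf⟩

omit [IsAlgClosed Ω] in
theorem GD.mem_aff {S : Type} [CommRing S] (a : R →+* S) (s : (Xs Ω ⟶ Xs S) → G.A) :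
    s ∈ G.sec (spm a) ↔ (fun y : S →+* Ω => s (spm y)) ∈ G.Gam a := by
  refine ⟨fun h => ?_, fun h W _ w => ?_⟩
  · have := h S (𝟙 _)
    rw [Category.id_comp, rh_spm] at this
    simpa only [Category.comp_id] using this
  · have := G.res a (rh w) _ h
    rw [← spm_rh w, spm_comp, rh_spm]
    simpa only [spm_comp] using this

variable {G G'}

/-- A map of admissible functions given pointwise, over a ring map `σ`. -/
structure GM (σ : R →+* R) (G G' : GD Ω R) where
  u : (R →+* Ω) → G.A → G'.A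
  add : ∀ {V : Type} [CommRing V] (a : R →+* V) (s t : (V →+* Ω) → G.A) (y : V →+* Ω),
    s ∈ G.Gam (a.comp σ) → t ∈ G.Gam (a.comp σ) →
      u (y.comp a) (s y + t y) = u (y.comp a) (s y) + u (y.comp a) (t y)
  mem : ∀ {V : Type} [CommRing V] (a : R →+* V) (s : (V →+* Ω) → G.A), s ∈ G.Gam (a.comp σ) →
    (fun y : V →+* Ω => u (y.comp a) (s y)) ∈ G'.Gam a

omit [IsAlgClosed Ω] in
theorem rh_sp {Y : Scheme.{0}} {W : Type} [CommRing W] (w : Xs W ⟶ Y) (h : Y ⟶ Xs R)
    (σ : R →+* R) : rh (w ≫ h ≫ spm σ) = (rh (w ≫ h)).comp σ :=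
  spm_inj (by rw [spm_rh, ← spm_comp, spm_rh, Category.assoc])

/-- The map on sections. -/
def GM.app {σ : R →+* R} (m : GM σ G G') {Y : Scheme.{0}} (h h' : Y ⟶ Xs R) (e : h' = h ≫ spm σ) :
    G.sec h' →+ G'.sec h :=
  .mk' (fun s => ⟨fun p => m.u (rh (p ≫ h)) (s.1 p), fun W _ w => by
      have h1 := G.cast (s.2 W w) ((congrArg (fun t => rh (w ≫ t)) e).trans (rh_sp w h σ))
      simpa only [Category.assoc, rh_comp] using m.mem _ _ h1⟩)
    fun s t => Subtype.ext (funext fun p => by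
      have h1 := G.cast (s.2 Ω p) ((congrArg (fun t => rh (p ≫ t)) e).trans (rh_sp p h σ))
      have h2 := G.cast (t.2 Ω p) ((congrArg (fun t => rh (p ≫ t)) e).trans (rh_sp p h σ))
      have := m.add _ _ _ (RingHom.id Ω) h1 h2
      simp only [spm_id, Category.id_comp, RingHom.id_comp] at this
      exact this)

/-- The map of sheaves over the identity. -/
def GM.sh (m : GM (RingHom.id R) G G') : G.sh ⟶ G'.sh :=
  mkH (fun U => m.app U.hom U.hom (by rw [spm_id, Category.comp_id])) fun f s =>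
    Subtype.ext (funext fun p => congrArg (fun t => m.u (rh t) (s.1 (p ≫ f.left)))
      (ovw f p).symm)

/-- The automorphism of the affine scheme. -/
abbrev spI (σ : R ≃+* R) : Xs R ≅ Xs R := Scheme.Spec.mapIso σ.toCommRingCatIso.op

/-- The map of sheaves over an automorphism. -/
def GM.tsh {σ : R ≃+* R} (m : GM (σ : R →+* R) G G') : (push (spI σ)).obj G.sh ⟶ G'.sh :=
  mkH (fun U => m.app U.hom ((tw (spI σ)).obj U).hom rfl) fun f s =>
    Subtype.ext (funext fun p => congrArg (fun t => m.u (rh t) (s.1 (p ≫ f.left)))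
      (ovw f p).symm)

end

end Pool.Agent.Lib.MP_16ef92_ag.FT
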