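import Mathlib
import Pool.Agent.Lib.MP_16ef92_ag.FT.Shf

/-! Exactness, acyclicity and the roots of unity for sheaves of admissible functions. -/

set_option autoImplicit false
set_option linter.unusedSectionVars false
set_option backward.isDefEq.respectTransparency false

namespace Pool.Agent.Lib.MP_16ef92_ag.FT

open CategoryTheory Limits AlgebraicGeometry Opposite Abelian ET EL

noncomputable section

variable {Ω R : Type} [Field Ω] [CommRing R] [IsAlgClosed Ω] {G G₁ G₂ G₃ : GD Ω R}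

/-- Every prime is the kernel of a geometric point. -/
abbrev Gd (Ω R : Type) [Field Ω] [CommRing R] : Prop :=
  ∀ P : Ideal R, P.IsPrime → ∃ x : R →+* Ω, RingHom.ker x = P

section aff

variable {S : Type} [CommRing S] [Algebra R S] [Algebra.Etale R S]

/-- The section over an affine object given by an admissible function. -/
def GD.ofGam (t : (S →+* Ω) → G.A) (ht : t ∈ G.Gam (algebraMap R S)) :
    G.sh.obj.obj (op (Aff R S)) :=
  (⟨fun p => t (rh p), (G.mem_aff _ _).2 (by simpa only [rh_spm] using ht)⟩ :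
    G.sec (spm (algebraMap R S)))

theorem GD.toGam {U : (Xs R).Etale} (s : G.sec U.hom) (f : Aff R S ⟶ U) :
    (fun y : S →+* Ω => s.1 (spm y ≫ f.left)) ∈ G.Gam (algebraMap R S) :=
  G.cast (s.2 S f.left) ((congrArg rh (MorphismProperty.Over.w f)).trans (rh_spm _))

omit [IsAlgClosed Ω] in
theorem rh_aff (p : Xs Ω ⟶ Xs S) :
    rh (p ≫ spm (algebraMap R S)) = (rh p).comp (algebraMap R S) :=
  spm_inj (by rw [spm_rh, ← spm_comp, spm_rh])

theorem rh_pt {U : (Xs R).Etale} (f : Aff R S ⟶ U) (y : S →+* Ω) :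
    rh ((spm y ≫ f.left) ≫ U.hom) = y.comp (algebraMap R S) :=
  (congrArg rh (ovw f _)).trans ((rh_aff _).trans (by rw [rh_spm]))

end aff

/-- A local statement over etale ring maps gives a covering sieve. -/
theorem cover_of_loc (hR : Gd Ω R) {U : (Xs R).Etale} (Q : Sieve U)
    (H : ∀ (S : Type) [CommRing S] [Algebra R S] [Algebra.Etale R S] (f : Aff R S ⟶ U)
      (y : S →+* Ω), ∃ (W : Type) (_ : CommRing W) (b : S →+* W) (z : W →+* Ω), b.Etale ∧
        z.comp b = y ∧ ∀ [Algebra R W] [Algebra.Etale R W] (g : S →ₐ[R] W),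
          (g : S →+* W) = b → Q (afm g ≫ f)) :
    Q ∈ (Xs R).smallEtaleTopology U := by
  refine cover_of_geo hR Q fun S _ _ _ f y => ?_
  obtain ⟨W, _, b, z, hb, hz, h⟩ := H S f y
  let _ := (b.comp (algebraMap R S)).toAlgebra
  have : Algebra.Etale R W := RingHom.etale_algebraMap.1
    (RingHom.Etale.stableUnderComposition _ _ (RingHom.etale_algebraMap.2 inferInstance) hb)
  exact ⟨W, inferInstance, inferInstance, inferInstance, ⟨b, fun _ => rfl⟩, z, hz, h _ rfl⟩

theorem pt_zero {U : (Xs R).Etale} (s : G.sec U.hom)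
    (h : ∀ (S : Type) [CommRing S] (a : R →+* S) (j : Xs S ⟶ U.left), a.Etale →
      j ≫ U.hom = spm a → ∀ y : S →+* Ω, s.1 (spm y ≫ j) = 0) : s = 0 := by
  refine Subtype.ext (funext fun p => ?_)
  obtain ⟨S, _, j, _, y, rfl⟩ := exists_open p
  have : Etale U.hom := U.prop
  exact h S (rh (j ≫ U.hom)) j (etale_spm.1 (by rw [spm_rh]; infer_instance)) (spm_rh _).symm y

theorem GM.epi (hR : Gd Ω R) (p : GM (RingHom.id R) G₂ G₃)
    (h3 : ∀ {V : Type} [CommRing V] (a : R →+* V), ∀ s ∈ G₃.Gam a, ∀ y : V →+* Ω,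
      ∃ (W : Type) (_ : CommRing W) (b : V →+* W) (z : W →+* Ω), b.Etale ∧ z.comp b = y ∧
        ∃ t ∈ G₂.Gam (b.comp a), ∀ z' : W →+* Ω,
          p.u (z'.comp (b.comp a)) (t z') = s (z'.comp b)) : Epi p.sh := by
  have : Sheaf.IsLocallySurjective p.sh := ⟨fun {U} s => cover_of_loc hR _ fun S _ _ _ f y => by
    obtain ⟨W, _, b, z, hb, hz, t, ht, h⟩ := h3 _ _ (G₃.toGam s f) y
    refine ⟨W, inferInstance, b, z, hb, hz, fun g hg => ?_⟩
    subst hg
    refine ⟨G₂.ofGam t (G₂.cast ht g.comp_algebraMap), Subtype.ext (funext fun q => ?_)⟩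
    change p.u (rh (q ≫ spm (algebraMap R W))) (t (rh q)) =
      Subtype.val (s : G₃.sec U.hom) (q ≫ spm (g : S →+* W) ≫ f.left)
    rw [rh_aff, ← g.comp_algebraMap, h, ← spm_comp, spm_rh, Category.assoc]⟩
  infer_instance

theorem GM.shortExact (hR : Gd Ω R) (i : GM (RingHom.id R) G₁ G₂) (p : GM (RingHom.id R) G₂ G₃)
    (h0 : i.sh ≫ p.sh = 0)
    (h1 : ∀ {V : Type} [CommRing V] (a : R →+* V), ∀ s ∈ G₁.Gam a, ∀ y : V →+* Ω,
      i.u (y.comp a) (s y) = 0 → s y = 0)
    (h2 : ∀ {V : Type} [CommRing V] (a : R →+* V), ∀ s ∈ G₂.Gam a,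
      (∀ y : V →+* Ω, p.u (y.comp a) (s y) = 0) →
        ∃ t ∈ G₁.Gam a, ∀ y : V →+* Ω, i.u (y.comp a) (t y) = s y)
    (h3 : ∀ {V : Type} [CommRing V] (a : R →+* V), ∀ s ∈ G₃.Gam a, ∀ y : V →+* Ω,
      ∃ (W : Type) (_ : CommRing W) (b : V →+* W) (z : W →+* Ω), b.Etale ∧ z.comp b = y ∧
        ∃ t ∈ G₂.Gam (b.comp a), ∀ z' : W →+* Ω,
          p.u (z'.comp (b.comp a)) (t z') = s (z'.comp b)) :
    (ShortComplex.mk i.sh p.sh h0).ShortExact where
  epi_g := p.epi hR h3
  mono_f := mono_of_inj _ fun U => (injective_iff_map_eq_zero (i.sh.hom.app U).hom).2 fun s hs =>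
    Subtype.ext (funext fun q => by
      have h := h1 _ _ ((s : G₁.sec U.unop.hom).2 Ω q) (RingHom.id Ω)
      simp only [spm_id, Category.id_comp, RingHom.id_comp] at h
      exact h (congrArg (fun t : G₂.sec U.unop.hom => t.1 q) hs))
  exact := exact_of_loc _ fun U s hs => by
    have key : ∀ (S : Type) [CommRing S] [Algebra R S] [Algebra.Etale R S] (f : Aff R S ⟶ U),
        ∃ b, i.sh.hom.app (op (Aff R S)) b = G₂.sh.obj.map f.op s := fun S _ _ _ f => by
      obtain ⟨t, ht, h⟩ := h2 _ _ (G₂.toGam s f) fun y => by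
        rw [← rh_pt f]
        exact congrArg (fun t : G₃.sec U.hom => t.1 (spm y ≫ f.left)) hs
      refine ⟨G₁.ofGam t ht, Subtype.ext (funext fun q => ?_)⟩
      change i.u (rh (q ≫ spm (algebraMap R S))) (t (rh q)) =
        Subtype.val (s : G₂.sec U.hom) (q ≫ f.left)
      rw [rh_aff, h, spm_rh]
    refine ⟨⟨fun W f => ∃ b, i.sh.hom.app (op W) b = G₂.sh.obj.map f.op s, ?_⟩,
      cover_of_loc hR _ fun S _ _ _ f y => ⟨S, inferInstance, RingHom.id S, y,
        RingHom.Etale.of_bijective Function.bijective_id, rfl, fun g hg => key _ _⟩,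
      fun W f hf => hf⟩
    rintro W W' f ⟨b, hb⟩ g
    refine ⟨G₁.sh.obj.map g.op b, ?_⟩
    rw [NatTrans.naturality_apply, hb, op_comp, Functor.map_comp]
    rfl

/-- Admissible functions that amount to arbitrary functions have no cohomology. -/
theorem GD.acyclic (hR : Gd Ω R) {B : Type} [AddCommGroup B] (M : (R →+* Ω) → AddSubgroup B)
    (ev : (R →+* Ω) → G.A → B)
    (hadd : ∀ {V : Type} [CommRing V] (a : R →+* V), ∀ s ∈ G.Gam a, ∀ t ∈ G.Gam a, ∀ y : V →+* Ω,
      ev (y.comp a) (s y + t y) = ev (y.comp a) (s y) + ev (y.comp a) (t y))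
    (hmem : ∀ {V : Type} [CommRing V] (a : R →+* V), ∀ s ∈ G.Gam a, ∀ y : V →+* Ω,
      ev (y.comp a) (s y) ∈ M (y.comp a))
    (hinj : ∀ {V : Type} [CommRing V] (a : R →+* V), a.Etale → ∀ s ∈ G.Gam a,
      (∀ y : V →+* Ω, ev (y.comp a) (s y) = 0) → s = 0)
    (hsur : ∀ {V : Type} [CommRing V] (a : R →+* V), a.Etale → ∀ t : (V →+* Ω) → B,
      (∀ y, t y ∈ M (y.comp a)) → ∃ s ∈ G.Gam a, ∀ y : V →+* Ω, ev (y.comp a) (s y) = t y)
    {n : ℕ} (x : Ext (zz (Xs R)) G.sh (n + 1)) : x = 0 := by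
  let Φ : (R →+* Ω) → (Xs R).smallEtaleTopology.Point.{0} := fun x =>
    Scheme.pointSmallEtale (spm x)
  have hp : ∀ {U : (Xs R).Etale} {x : R →+* Ω} (p : Ptv x U), rh (p.hom ≫ U.hom) = x :=
    fun p => by rw [p.w, rh_spm]
  have h1 : ∀ {U : (Xs R).Etale} (s : G.sec U.hom) (x : R →+* Ω) (p : Ptv x U),
      ev x (s.1 p.hom) ∈ M x := fun s x p => by
    have := hmem _ _ (s.2 Ω p.hom) (RingHom.id Ω)
    simpa only [spm_id, Category.id_comp, RingHom.id_comp, hp] using this
  let e : G.sh ⟶ fdS Φ fun x => M x :=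
    mkH (fun U => .mk' (fun (s : G.sec U.hom) x (p : Ptv x U) => ⟨ev x (s.1 p.hom), h1 s x p⟩)
      fun (s t : G.sec U.hom) => funext fun x => funext fun (p : Ptv x U) => Subtype.ext (by
        have := hadd _ _ (s.2 Ω p.hom) _ (t.2 Ω p.hom) (RingHom.id Ω)
        simp only [spm_id, Category.id_comp, RingHom.id_comp, hp] at this
        exact this)) fun f s => rfl
  have : Mono e := mono_of_inj _ fun U => (injective_iff_map_eq_zero (e.hom.app U).hom).2
    fun s hs => pt_zero s fun S _ a j ha hj y => by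
      refine congrFun (hinj a ha _ (G.cast ((s : G.sec U.unop.hom).2 S j)
        ((congrArg rh hj).trans (rh_spm a))) fun y => ?_) y
      exact congrArg Subtype.val (congrFun (congrFun hs (y.comp a))
        (Ptv.mk (spm y ≫ j) (by rw [Category.assoc, hj, spm_comp])))
  have : Sheaf.IsLocallySurjective e := ⟨fun {U} s => by
    have key : ∀ (S : Type) [CommRing S] [Algebra R S] [Algebra.Etale R S] (f : Aff R S ⟶ U),
        ∃ b, e.hom.app (op (Aff R S)) b = (fdS Φ fun x => M x).obj.map f.op s := fun S _ _ _ f => by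
      let pt : ∀ y : S →+* Ω, Ptv (y.comp (algebraMap R S)) U := fun y =>
        .mk (spm y ≫ f.left) ((ovw f _).trans (spm_comp _ _))
      obtain ⟨t, ht, h⟩ := hsur (algebraMap R S) (RingHom.etale_algebraMap.2 inferInstance)
        (fun y => (s _ (pt y)).1) fun y => (s _ (pt y)).2
      refine ⟨G.ofGam t ht, funext fun x => funext fun (p : Ptv x (Aff R S)) => Subtype.ext ?_⟩
      obtain ⟨y, hy⟩ : ∃ y, rh p.hom = y := ⟨_, rfl⟩
      obtain rfl : x = y.comp (algebraMap R S) :=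
        (hp p).symm.trans ((rh_aff _).trans (congrArg (RingHom.comp · _) hy))
      refine (congrArg (fun z => ev _ (t z)) hy).trans
        ((h y).trans (congrArg (fun t => (s _ t).1) (Ptv.ext ?_)))
      exact congrArg (· ≫ f.left) ((congrArg spm hy.symm).trans (spm_rh _))
    exact cover_of_loc hR _ fun S _ _ _ f y => ⟨S, inferInstance, RingHom.id S, y,
      RingHom.Etale.of_bijective Function.bijective_id, rfl, fun g hg => key _ _⟩⟩
  have : IsIso e := isIso_of_mono_of_epi e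
  have h := fdS_acyclic Φ (tmT R) (fun x => M x) (x.comp (Ext.mk₀ e) (add_zero _))
  have h' := congrArg (fun t => t.comp (Ext.mk₀ (inv e)) (add_zero _)) h
  simpa only [Ext.comp_assoc_of_third_deg_zero, Ext.mk₀_comp_mk₀, IsIso.hom_inv_id,
    Ext.comp_mk₀_id, Ext.zero_comp] using h'

end

end Pool.Agent.Lib.MP_16ef92_ag.FT
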