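import Mathlib
import Pool.Agent.Lib.MP_16ef92_ag.FT.Exa
import Pool.Agent.Lib.MP_16ef92_ag.EL.Rp
import Pool.Agent.Lib.MP_16ef92_ag.RS.Coh

/-! Comparison of the cohomology of rigid systems with etale cohomology. -/

set_option autoImplicit false
set_option linter.unusedSectionVars false
set_option linter.unusedVariables false
set_option backward.isDefEq.respectTransparency false

namespace Pool.Agent.Lib.MP_16ef92_ag.FT

open CategoryTheory Limits AlgebraicGeometry Opposite Abelian ET EL RS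

noncomputable section

variable [Bg] {R : Type} [CommRing R] {F G K : Sys R}

/-- The admissible functions of a system. -/
def gd (F : Sys R) : GD OO R where
  A := F.A
  Gam a := F.S a
  res _ b _ h := F.res b h
  loc _ _ h := F.loc h

/-- The pointwise map of a morphism. -/
def gm {σ : R →+* R} (m : Mor σ F G) : GM σ (gd F) (gd G) where
  u := m.φ
  add a _ _ y hs ht := m.add (y.comp a) _ (F.mem hs y) _ (F.mem ht y)
  mem _ _ hs := m.sec hs

theorem val_mem {Y : Scheme.{0}} {h : Y ⟶ Xs R} (s : (gd F).sec h) (p : Xs OO ⟶ Y) :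
    s.1 p ∈ F.M (rh (p ≫ h)) := by
  have := F.mem (s.2 OO p) (RingHom.id OO)
  simpa only [spm_id, Category.id_comp, RingHom.id_comp] using this

theorem ses_zero {i : Hom F G} {p : Hom G K} (h : SES i p) : (gm i).sh ≫ (gm p).sh = 0 :=
  hom_ext' fun U s => Subtype.ext (funext fun q =>
    (h.ex _ _ (i.mem _ _ (val_mem s q))).2 (Mor.mem_im.2 ⟨_, val_mem s q, rfl⟩))

theorem ses_exact (hR : Good R) {i : Hom F G} {p : Hom G K} (h : SES i p) :
    (ShortComplex.mk (gm i).sh (gm p).sh (ses_zero h)).ShortExact := by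
  refine GM.shortExact hR _ _ _ (fun a s hs y => h.inj _ _ (F.mem hs y)) (fun a s hs h0 => ?_)
    fun a s hs y => ?_
  · choose t h1 h2 using fun y => Mor.mem_im.1 ((h.ex _ _ (G.mem hs y)).1 (h0 y))
    exact ⟨t, i.sec_of_inj h.inj h1 ((funext h2 : _ = s) ▸ hs), h2⟩
  · obtain ⟨W, _, b, z, t, h1, h2, h3, h4⟩ :=
      p.lift_loc hs y (Mor.mem_im.2 (h.surj _ _ (K.mem hs y)))
    exact ⟨W, inferInstance, b, z, h1, h2, t, h3, h4⟩

theorem J_acyclic (hR : Good R) (F : Sys R) {n : ℕ} (x : Ext (zz (Xs R)) (gd (J F)).sh (n + 1)) :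
    x = 0 := by
  refine (gd (J F)).acyclic hR F.M (god F).ev
    (fun a s hs t ht y => Pre.ev_add _ ((J F).mem hs y) ((J F).mem ht y))
    (fun a s hs y => Pre.ev_mem (P := god F) _ ((J F).mem hs y)) (fun a ha s hs h => ?_)
    (fun a ha t ht => ⟨fun y => (god F).germ a y t, Pre.gs_germ (P := god F) ha ht,
      fun y => Pre.ev_germ (P := god F) ha y ht⟩) x
  funext y
  rw [((god_shf F).sec ha hs).2 y]
  exact ((god F).gd.germ_zero y ha ((god_shf F).sec ha hs).1).2 (.of_forall h)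

/-- The canonical short exact sequence of sheaves. -/
abbrev canS (F : Sys R) : ShortComplex (Sheaf (Xs R).smallEtaleTopology AddCommGrpCat.{0}) :=
  ShortComplex.mk (gm (eta F)).sh (gm (piQ F)).sh (ses_zero (ses_can F))

/-- The value of a global section at a geometric point. -/
def gv (z : zz (Xs R) ⟶ (gd F).sh) (p : Xs OO ⟶ Xs R) : F.A :=
  Subtype.val (sec (tmT R) _ z : (gd F).sec (tm R).hom) p

theorem gv_ext {z z' : zz (Xs R) ⟶ (gd F).sh} (h : ∀ p, gv z p = gv z' p) : z = z' :=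
  (sec (tmT R) _).injective (Subtype.ext (funext h))

theorem gv_sub (z z' : zz (Xs R) ⟶ (gd F).sh) (p : Xs OO ⟶ Xs R) :
    gv (z - z') p = gv z p - gv z' p :=
  congrArg (fun s : (gd F).sec (tm R).hom => s.1 p) (map_sub (sec (tmT R) _) z z')

variable (hR : Good R)

/-- The comparison relation. -/
def Cmp : ∀ (q : ℕ) (F : Sys R), H q F → Ext (zz (Xs R)) (gd F).sh q → Prop
  | 0, F, x, ξ => ∃ z, ξ = Ext.mk₀ z ∧ ∀ p, gv z p = Subtype.val (x : Z0 F) (rh p)
  | q + 1, F, x, ξ => ∃ y η, x = sh q F y ∧ Cmp q (Q F) y η ∧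
      ξ = η.comp (ses_exact hR (ses_can F)).extClass rfl

theorem cmp_left (q : ℕ) : ∀ (F : Sys R) (x : H q F), ∃ ξ, Cmp hR q F x ξ := by
  induction q with
  | zero =>
    intro F (x : Z0 F)
    let s : (gd F).sec (tm R).hom := ⟨fun p => x.1 (rh p), fun W _ w => by
      have := F.res' (rh w) (a' := rh (w ≫ (tm R).hom))
        (congrArg rh (Category.comp_id w).symm) x.2
      simp only [rh_comp]
      exact this⟩
    exact ⟨_, (sec (tmT R) (gd F).sh).symm s, rfl, fun p =>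
      congrArg (fun t : (gd F).sec (tm R).hom => t.1 p) ((sec (tmT R) (gd F).sh).apply_symm_apply s)⟩
  | succ q ih =>
    intro F x
    obtain ⟨y, rfl⟩ := sh_surj q F x
    obtain ⟨η, h⟩ := ih _ y
    exact ⟨_, y, η, rfl, h, rfl⟩

theorem cmp_right (q : ℕ) : ∀ (F : Sys R) ξ, ∃ x : H q F, Cmp hR q F x ξ := by
  induction q with
  | zero =>
    intro F ξ
    obtain ⟨z, rfl⟩ := (Ext.mk₀_bijective _ _).2 ξ
    have h := (gd F).cast ((sec (tmT R) _ z : (gd F).sec (tm R).hom).2 R (𝟙 _))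
      (a' := RingHom.id R) (spm_inj (by rw [spm_rh, spm_id]; exact Category.id_comp _))
    refine ⟨(⟨_, h⟩ : Z0 F), z, rfl, fun p => congrArg (gv z) ?_⟩
    rw [spm_rh]
    exact (Category.comp_id p).symm
  | succ q ih =>
    intro F ξ
    obtain ⟨η, rfl⟩ := Ext.covariant_sequence_exact₁ _ (ses_exact hR (ses_can F)) ξ
      (J_acyclic hR F _) rfl
    obtain ⟨y, h⟩ := ih _ η
    exact ⟨_, y, η, rfl, h, rfl⟩

variable {hR}

theorem Cmp.sub {q : ℕ} : ∀ {F : Sys R} {x x' : H q F} {ξ ξ'}, Cmp hR q F x ξ → Cmp hR q F x' ξ' →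
    Cmp hR q F (x - x') (ξ - ξ') := by
  induction q with
  | zero =>
    rintro F x x' _ _ ⟨z, rfl, h⟩ ⟨z', rfl, h'⟩
    exact ⟨z - z', (hom_mk_sub z z').symm, fun p => by rw [gv_sub, h, h']; rfl⟩
  | succ q ih =>
    rintro F _ _ _ _ ⟨y, η, rfl, h, rfl⟩ ⟨y', η', rfl, h', rfl⟩
    exact ⟨y - y', η - η', (map_sub _ _ _).symm, ih h h', (hom_sub _ _ _ _).symm⟩

theorem can_comm {σ : R →+* R} (m : Mor σ F G) {Y : Scheme.{0}} {h h' : Y ⟶ Xs R}
    (e : h' = h ≫ spm σ) (p : Xs OO ⟶ Y) : rh (p ≫ h') = (rh (p ≫ h)).comp σ :=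
  (congrArg (fun t => rh (p ≫ t)) e).trans (rh_sp p h σ)

theorem Cmp.nat {q : ℕ} : ∀ {F G : Sys R} (m : Hom F G) {x : H q F} {ξ}, Cmp hR q F x ξ →
    Cmp hR q G (Hmap q m x) (ξ.comp (Ext.mk₀ (gm m).sh) (add_zero q)) := by
  induction q with
  | zero =>
    rintro F G m x _ ⟨z, rfl, h⟩
    refine ⟨z ≫ (gm m).sh, Ext.mk₀_comp_mk₀ _ _, fun p => ?_⟩
    change m.φ (rh (p ≫ 𝟙 _)) (gv z p) = m.φ (rh p) _
    rw [Category.comp_id, h]
    rfl
  | succ q ih =>
    rintro F G m _ _ ⟨y, η, rfl, h, rfl⟩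
    let f : canS F ⟶ canS G := ⟨(gm m).sh, (gm m.jm).sh, (gm m.qm).sh,
      hom_ext' fun U s => Subtype.ext (funext fun p => (m.jm_eta _ (val_mem s p)).symm),
      hom_ext' fun U s => Subtype.ext (funext fun p => (m.qm_pi _ (val_mem s p)).symm)⟩
    exact ⟨_, _, sh_nat q m y, ih m.qm h,
      ext_nat (ses_exact hR (ses_can F)) (ses_exact hR (ses_can G)) f η⟩

theorem Cmp.act {σ : R ≃+* R} {q : ℕ} : ∀ {F G : Sys R} (m : Mor (σ : R →+* R) F G) {x : H q F} {ξ},
    Cmp hR q F x ξ →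
    Cmp hR q G (Hmap q m x) (tact (push (spI σ)) (zzMap (spI σ)) (gm m).tsh ξ) := by
  induction q with
  | zero =>
    rintro F G m x _ ⟨z, rfl, h⟩
    refine ⟨_, tact_mk _ _ _ _, fun p => ?_⟩
    have e := congrArg (fun t => Subtype.val ((gm m).tsh.hom.app _ t : (gd G).sec (tm R).hom) p)
      (sec_push (tmT R) (spI σ) z)
    rw [← Category.assoc]
    refine Eq.trans (b := _) e ?_
    change m.φ (rh (p ≫ 𝟙 _)) (gv z (p ≫ 𝟙 _ ≫ spm (σ : R →+* R))) = m.φ (rh p) _
    rw [h, rh_sp, Category.comp_id]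
  | succ q ih =>
    rintro F G m _ _ ⟨y, η, rfl, h, rfl⟩
    have hv : ∀ {K : Sys R} {U : (Xs R).Etale} (s : (gd K).sec ((tw (spI σ)).obj U).hom)
        (p : Xs OO ⟶ U.left), s.1 p ∈ K.M ((rh (p ≫ U.hom)).comp σ) := fun s p =>
      rh_sp p _ (σ : R →+* R) ▸ val_mem s p
    let f : (canS F).map (push (spI σ)) ⟶ canS G := ⟨(gm m).tsh, (gm m.jm).tsh, (gm m.qm).tsh,
      hom_ext' fun U s => Subtype.ext (funext fun p => (m.jm_eta _ (hv s p)).symm.trans
        (congrArg (fun t => m.jm.φ _ ((eta F).φ t (Subtype.val s p))) (rh_sp p U.hom _).symm)),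
      hom_ext' fun U s => Subtype.ext (funext fun p => (m.qm_pi _ (hv s p)).symm.trans
        (congrArg (fun t => m.qm.φ _ ((piQ F).φ t (Subtype.val s p))) (rh_sp p U.hom _).symm))⟩
    exact ⟨_, _, sh_nat q m y, ih m.qm h,
      tact_ext _ _ (ses_exact hR (ses_can F)) (ses_exact hR (ses_can G)) f η⟩

theorem Cmp.zero {q : ℕ} : ∀ {F : Sys R} {ξ}, Cmp hR q F 0 ξ → ξ = 0 := by
  induction q with
  | zero =>
    rintro F _ ⟨z, rfl, h⟩
    obtain rfl : z = 0 := gv_ext fun p => (h p).trans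
      (congrArg (fun s : (gd F).sec (tm R).hom => s.1 p) (map_zero (sec (tmT R) (gd F).sh))).symm
    exact Ext.mk₀_zero _ _
  | succ q ih =>
    rintro F _ ⟨y, η, e, h, rfl⟩
    obtain ⟨a, rfl⟩ := (sh_ker q F y).1 e.symm
    obtain ⟨θ, h'⟩ := cmp_left hR q _ a
    have h1 := h.sub (h'.nat (piQ F))
    rw [sub_self] at h1
    rw [sub_eq_zero.1 (ih h1), Ext.comp_assoc_of_second_deg_zero]
    exact (congrArg (θ.comp · _) (ses_exact hR (ses_can F)).comp_extClass).trans (Ext.comp_zero ..)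

theorem Cmp.uniq {q : ℕ} {x : H q F} {ξ ξ'} (h : Cmp hR q F x ξ) (h' : Cmp hR q F x ξ') :
    ξ = ξ' := by
  have h1 := h.sub h'
  rw [sub_self] at h1
  exact sub_eq_zero.1 h1.zero

variable (hR) in
/-- The comparison map. -/
def cmp (q : ℕ) (F : Sys R) : H q F →+ Ext (zz (Xs R)) (gd F).sh q :=
  AddMonoidHom.ofMapSub (fun x => (cmp_left hR q F x).choose) fun x y =>
    (cmp_left hR q F _).choose_spec.uniq
      ((cmp_left hR q F x).choose_spec.sub (cmp_left hR q F y).choose_spec)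

theorem cmp_spec (q : ℕ) (x : H q F) : Cmp hR q F x (cmp hR q F x) :=
  (cmp_left hR q F x).choose_spec

theorem cmp_surj (q : ℕ) (F : Sys R) : Function.Surjective (cmp hR q F) := fun ξ =>
  (cmp_right hR q F ξ).imp fun x h => (cmp_spec q x).uniq h

theorem cmp_act {σ : R ≃+* R} (q : ℕ) (m : Mor (σ : R →+* R) F G) (x : H q F) :
    cmp hR q G (Hmap q m x) = tact (push (spI σ)) (zzMap (spI σ)) (gm m).tsh (cmp hR q F x) :=
  (cmp_spec q _).uniq ((cmp_spec q x).act m)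

end

end Pool.Agent.Lib.MP_16ef92_ag.FT
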