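import Mathlib
import Pool.Agent.Lib.MP_16ef92_ag.EL.One

set_option autoImplicit false

namespace Pool.Agent.Lib.MP_16ef92_ag.FT

open Polynomial CategoryTheory AlgebraicGeometry EL

noncomputable section

variable {F : Type} [Field F] {n : ℕ}

/-- The product of all `A_i B_i (A_i - B_i) C_i`. -/
def bad (A B C : Fin n → F[X]) : F[X] := ∏ i, A i * B i * (A i - B i) * C i

/-- The ideal of the affine variety `y_i^2 = x_i (x_i - D C_i A_i) (x_i - D C_i B_i)` for all `i`,
`N D ≠ 0`, where `N = bad A B C`.  The variables are `t = X (inl 0)`, `z = X (inl 1)` with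
`z = 1 / (N D)`, `x_i = X (inr (inl i))` and `y_i = X (inr (inr i))`. -/
def varIdeal (A B C : Fin n → F[X]) (D : F[X]) : Ideal (MvPolynomial (Fin 2 ⊕ Fin n ⊕ Fin n) F) :=
  Ideal.span (insert
    (MvPolynomial.X (Sum.inl 1) * aeval (MvPolynomial.X (Sum.inl 0)) (bad A B C * D) - 1)
    (Set.range fun i => MvPolynomial.X (Sum.inr (Sum.inr i)) ^ 2 -
      MvPolynomial.X (Sum.inr (Sum.inl i)) *
      (MvPolynomial.X (Sum.inr (Sum.inl i)) - aeval (MvPolynomial.X (Sum.inl 0)) (D * C i * A i)) *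
      (MvPolynomial.X (Sum.inr (Sum.inl i)) - aeval (MvPolynomial.X (Sum.inl 0)) (D * C i * B i))))

/-- The coordinate ring of the variety. -/
abbrev var (A B C : Fin n → F[X]) (D : F[X]) : Type :=
  MvPolynomial (Fin 2 ⊕ Fin n ⊕ Fin n) F ⧸ varIdeal A B C D

/-- On the inverse limit of the tower `H` with `l` inverted, the kernel of `T ∘ T` is the kernel
of `T`, and its dimension is at most `r`. -/
def SemiT (l : ℕ) [Fact l.Prime] (r : ℕ) {H : ℕ → Type} [∀ m, AddCommGroup (H m)]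
    (s : ∀ m, H (m + 1) →+ H m) (T : ∀ m, H m → H m) : Prop :=
  (∀ x : ∀ m, H m, InLim s x → Tors l (fun m => T m (T m (x m))) → Tors l fun m => T m (x m)) ∧
    ∀ x : Fin (r + 1) → ∀ m, H m, (∀ i, InLim s (x i) ∧ Tors l fun m => T m (x i m)) →
      ∃ a : Fin (r + 1) → ℤ_[l], a ≠ 0 ∧ Tors l (∑ i, zact (a i) (x i))

/-- On `H^(2j)(X, ℚ_l(1))`, from the inverse limit of the `H^(2j)(X, μ_(l^m))`, the operator
`T = q^j φ^* - q` has `ker T^2 = ker T`, of dimension at most `r`.  For the Frobenius `φ` of a field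
with `q` elements, `q^(j-1) φ^*` is the Frobenius on `H^(2j)(X, ℚ_l(j))`. -/
def SemiOn (l : ℕ) [Fact l.Prime] (q j r : ℕ) {X : Scheme.{0}} (φ : X ≅ X) : Prop :=
  SemiT l r (H := fun m => (mu X (l ^ m)).H (2 * j)) (fun m => Sheaf.H.map (pw X l m) (2 * j))
    fun m x => q ^ j • actH φ (l ^ m) (2 * j) x - q • x

end

end Pool.Agent.Lib.MP_16ef92_ag.FT
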