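import Mathlib
import Pool.Agent.Lib.MP_16ef92_ag.FT.St

set_option autoImplicit false

namespace Pool.Agent.Lib.MP_16ef92_ag.FT

open Polynomial CategoryTheory AlgebraicGeometry EL

noncomputable section

/-- The ideal of the equations `y_i^2 = x_i (x_i - a_i) (x_i - b_i)`, with `x_i = X (inl i)` and
`y_i = X (inr i)`. -/
def fibIdeal {R ι : Type} [CommRing R] (a b : ι → R) : Ideal (MvPolynomial (ι ⊕ ι) R) :=
  Ideal.span (Set.range fun i => MvPolynomial.X (Sum.inr i) ^ 2 - MvPolynomial.X (Sum.inl i) *
    (MvPolynomial.X (Sum.inl i) - MvPolynomial.C (a i)) *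
    (MvPolynomial.X (Sum.inl i) - MvPolynomial.C (b i)))

/-- The coordinate ring of the fibre product over `Spec R` of these affine curves. -/
abbrev fibRing {R ι : Type} [CommRing R] (a b : ι → R) : Type :=
  MvPolynomial (ι ⊕ ι) R ⧸ fibIdeal a b

variable {F : Type} [Field F] {n : ℕ}

/-- The coordinate ring of the variety `y_i^2 = x_i (x_i - D C_i A_i) (x_i - D C_i B_i)` for all
`i`, `N D ≠ 0`, where `N = bad A B C`. -/
abbrev tot (A B C : Fin n → F[X]) (D : F[X]) : Type :=
  fibRing (R := Localization.Away (bad A B C * D))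
    (fun i => algebraMap F[X] _ (D * C i * A i)) fun i => algebraMap F[X] _ (D * C i * B i)

end

end Pool.Agent.Lib.MP_16ef92_ag.FT
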