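import Mathlib
import Pool.Agent.Lib.MP_16ef92_ag.FT.Stm
import Pool.Agent.Lib.MP_16ef92_ag.FA.PO

/-! The universal property of the fibre product of curves. -/

set_option autoImplicit false
set_option linter.unusedSectionVars false
set_option linter.unusedVariables false

namespace Pool.Agent.Lib.MP_16ef92_ag.FT

open Polynomial WeierstrassCurve WeierstrassCurve.Affine TensorProduct FA

noncomputable section

variable {R R' S S' A ι : Type} [CommRing R] [CommRing R'] [CommRing S] [CommRing S'] [CommRing A]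

/-- `S` is the coordinate ring of `y_i^2 = x_i (x_i - a_i) (x_i - b_i)` over `R`. -/
structure IsFib (φ : R →+* S) (a b : ι → R) (x y : ι → S) : Prop where
  eq : ∀ i, y i ^ 2 = x i * (x i - φ (a i)) * (x i - φ (b i))
  ex : ∀ (Z : Type) [CommRing Z] (u : R →+* Z) (x' y' : ι → Z),
    (∀ i, y' i ^ 2 = x' i * (x' i - u (a i)) * (x' i - u (b i))) →
    ∃ w : S →+* Z, w.comp φ = u ∧ (∀ i, w (x i) = x' i) ∧ ∀ i, w (y i) = y' i
  uq : ∀ (Z : Type) [CommRing Z] (w w' : S →+* Z), w.comp φ = w'.comp φ →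
    (∀ i, w (x i) = w' (x i)) → (∀ i, w (y i) = w' (y i)) → w = w'

variable {φ : R →+* S} {a b : ι → R} {x y : ι → S}

/-- The coordinates. -/
def fv (a b : ι → R) (i : ι ⊕ ι) : fibRing a b := Ideal.Quotient.mk _ (MvPolynomial.X i)

theorem isFib_ring (a b : ι → R) : IsFib (algebraMap R (fibRing a b)) a b
    (fun i => fv a b (.inl i)) fun i => fv a b (.inr i) := by
  have h0 : algebraMap R (fibRing a b) = (Ideal.Quotient.mk _).comp MvPolynomial.C := rfl
  refine ⟨fun i => ?_, fun Z _ u x' y' h => ?_, fun Z _ w w' h1 h2 h3 => ?_⟩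
  · simp only [fv, h0, RingHom.comp_apply, ← map_pow, ← map_sub, ← map_mul]
    exact Ideal.Quotient.eq.2 (Ideal.subset_span ⟨i, rfl⟩)
  · refine ⟨Ideal.Quotient.lift _ (MvPolynomial.eval₂Hom u (Sum.elim x' y')) fun t ht => ?_,
      RingHom.ext fun r => ?_, fun i => ?_, fun i => ?_⟩
    · refine (Ideal.span_le (I := RingHom.ker _)).2 ?_ ht
      rintro _ ⟨i, rfl⟩
      simp [h i]
    all_goals simp [h0, fv]
  · exact Ideal.Quotient.ringHom_ext (MvPolynomial.ringHom_ext (RingHom.congr_fun h1)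
      fun i => by cases i; exacts [h2 _, h3 _])

theorem IsFib.map (h : IsFib φ a b x y) {Z : Type} [CommRing Z] (w : S →+* Z) (i : ι) :
    w (y i) ^ 2 = w (x i) * (w (x i) - w (φ (a i))) * (w (x i) - w (φ (b i))) := by
  simpa using congrArg w (h.eq i)

/-- Base change. -/
theorem IsFib.bc (h : IsFib φ a b x y) {g : R →+* R'} {i : S →+* S'} {j : R' →+* S'}
    (hp : PO φ g i j) : IsFib j (fun k => g (a k)) (fun k => g (b k)) (fun k => i (x k))
      fun k => i (y k) := by
  have e : ∀ r, j (g r) = i (φ r) := fun r => (RingHom.congr_fun hp.comm r).symm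
  refine ⟨fun k => by rw [e, e]; exact h.map i k, fun Z _ u x' y' h' => ?_,
    fun Z _ w w' h1 h2 h3 => hp.uq Z w w' (h.uq Z _ _ ?_ h2 h3) h1⟩
  · obtain ⟨v, v1, v2, v3⟩ := h.ex Z (u.comp g) x' y' h'
    obtain ⟨w, w1, w2⟩ := hp.ex Z v u v1
    exact ⟨w, w2, fun k => (RingHom.congr_fun w1 _).trans (v2 k),
      fun k => (RingHom.congr_fun w1 _).trans (v3 k)⟩
  · rw [RingHom.comp_assoc, hp.comm, ← RingHom.comp_assoc, h1, RingHom.comp_assoc, ← hp.comm,
      RingHom.comp_assoc]

/-- A map that respects the coordinates is a base change. -/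
theorem IsFib.po (h : IsFib φ a b x y) {g : R →+* R'} {i : S →+* S'} {j : R' →+* S'}
    (h' : IsFib j (fun k => g (a k)) (fun k => g (b k)) (fun k => i (x k)) fun k => i (y k))
    (hc : i.comp φ = j.comp g) : PO φ g i j := by
  refine ⟨hc, fun Z _ u v e => ?_, fun Z _ w w' h1 h2 => h'.uq Z w w' h2
    (fun k => RingHom.congr_fun h1 _) fun k => RingHom.congr_fun h1 _⟩
  obtain ⟨w, w1, w2, w3⟩ := h'.ex Z v (fun k => u (x k)) (fun k => u (y k)) fun k => by
    have := h.map u k
    rwa [← RingHom.comp_apply u φ, ← RingHom.comp_apply u φ, e] at this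
  exact ⟨w, h.uq Z _ _ (by rw [RingHom.comp_assoc, hc, ← RingHom.comp_assoc, w1, e]) w2 w3, w1⟩

theorem IsFib.exists_po (h : IsFib φ a b x y) {g : R →+* R'} {j : R' →+* S'} {x' y' : ι → S'}
    (h' : IsFib j (fun k => g (a k)) (fun k => g (b k)) x' y') :
    ∃ i : S →+* S', PO φ g i j ∧ (∀ k, i (x k) = x' k) ∧ ∀ k, i (y k) = y' k := by
  obtain ⟨i, h1, h2, h3⟩ := h.ex S' (j.comp g) x' y' h'.eq
  exact ⟨i, h.po (by simpa only [h2, h3] using h') h1, h2, h3⟩

theorem IsFib.equiv (h : IsFib φ a b x y) {φ' : R →+* S'} {x' y' : ι → S'}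
    (h' : IsFib φ' a b x' y') : ∃ e : S ≃+* S', e.toRingHom.comp φ = φ' ∧ (∀ k, e (x k) = x' k) ∧
      ∀ k, e (y k) = y' k := by
  obtain ⟨i, h1, h2, h3⟩ := h.exists_po (g := RingHom.id R) h'
  obtain ⟨e, e1, e2⟩ := (PO.id_left φ).symm.equiv h1
  exact ⟨e, e2, fun k => (RingHom.congr_fun e1 _).trans (h2 k),
    fun k => (RingHom.congr_fun e1 _).trans (h3 k)⟩

theorem isFib_empty [IsEmpty ι] (a b x y : ι → R) : IsFib (RingHom.id R) a b x y :=
  ⟨isEmptyElim, fun _ _ u _ _ _ => ⟨u, rfl, isEmptyElim, isEmptyElim⟩, fun _ _ _ _ h _ _ => h⟩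

/-- The curve `y^2 = x (x - a) (x - b)`. -/
def crv (a b : A) : Affine A := ⟨0, -(a + b), 0, a * b, 0⟩

theorem crv_map (a b : A) (g : A →+* R) : (crv a b).map g = crv (g a) (g b) := by
  simp [crv, WeierstrassCurve.map]

/-- One curve. -/
theorem isFib_crv (a b : A) : IsFib (algebraMap A (crv a b).CoordinateRing) (fun _ : Unit => a)
    (fun _ => b) (fun _ => CoordinateRing.mk _ (C X)) fun _ => CoordinateRing.mk _ X := by
  have h0 : ∀ r, algebraMap A (crv a b).CoordinateRing r = CoordinateRing.mk _ (C (C r)) :=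
    fun _ => rfl
  refine ⟨fun _ => ?_, fun Z _ u x' y' h => ?_, fun Z _ w w' h1 h2 h3 => ?_⟩
  · simp only [h0, ← map_pow, ← map_sub, ← map_mul]
    refine AdjoinRoot.mk_eq_mk.2 ⟨1, ?_⟩
    simp only [Affine.polynomial, crv, map_sub, map_mul, map_add, map_neg, map_pow, map_zero]
    ring
  · refine ⟨AdjoinRoot.lift (eval₂RingHom u (x' ())) (y' ()) ?_, RingHom.ext fun r => ?_,
      fun _ => ?_, fun _ => ?_⟩
    · simp only [Affine.polynomial, crv, eval₂_add, eval₂_sub, eval₂_mul, eval₂_pow, eval₂_X,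
        eval₂_C, coe_eval₂RingHom, map_add, map_neg, map_mul, map_zero, eval₂_neg, eval₂_zero]
      linear_combination h ()
    all_goals simp [h0]
  · refine Ideal.Quotient.ringHom_ext (Polynomial.ringHom_ext' (Polynomial.ringHom_ext' h1 (h2 ()))
      (h3 ()))

/-- Adding one curve. -/
theorem IsFib.step {n : ℕ} {a b : Fin (n + 1) → R} {x y : Fin n → S}
    (h : IsFib φ (fun k => a k.succ) (fun k => b k.succ) x y) {j : S →+* S'} {x₀ y₀ : S'}
    (h' : IsFib j (fun _ : Unit => φ (a 0)) (fun _ => φ (b 0)) (fun _ => x₀) fun _ => y₀) :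
    IsFib (j.comp φ) a b (Fin.cons x₀ fun k => j (x k)) (Fin.cons y₀ fun k => j (y k)) := by
  refine ⟨Fin.cases (h'.eq ()) (h.map j), fun Z _ u x' y' e => ?_, fun Z _ w w' h1 h2 h3 =>
    h'.uq Z w w' (h.uq Z _ _ h1 (fun k => h2 k.succ) fun k => h3 k.succ) (fun _ => h2 0)
      fun _ => h3 0⟩
  obtain ⟨v, rfl, v2, v3⟩ := h.ex Z u _ _ fun k => e k.succ
  obtain ⟨w, rfl, w2, w3⟩ := h'.ex Z v _ _ fun _ => e 0
  exact ⟨w, rfl, Fin.cases (w2 ()) v2, Fin.cases (w3 ()) v3⟩

theorem IsFib.dom [IsDomain R] {n : ℕ} {a b : Fin n → R} {x y : Fin n → S} (h : IsFib φ a b x y) :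
    IsDomain S := by
  induction n generalizing S with
  | zero =>
    obtain ⟨e, -⟩ := h.equiv (isFib_empty a b a a)
    exact e.toMulEquiv.isDomain
  | succ n ih =>
    have h1 := isFib_ring (fun k : Fin n => a k.succ) fun k => b k.succ
    have := ih h1
    obtain ⟨e, -⟩ := h.equiv (h1.step (isFib_crv _ _))
    exact e.toMulEquiv.isDomain

theorem IsFib.ft [Finite ι] (h : IsFib φ a b x y) : φ.FiniteType := by
  obtain ⟨e, e1, -⟩ := (isFib_ring a b).equiv h
  rw [← e1]
  exact (RingHom.FiniteType.of_surjective _ e.surjective).comp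
    (RingHom.finiteType_algebraMap.2 inferInstance)

variable {F k : Type} [Field F] [Field k]

/-- Extension of the constants of the base. -/
def awm (κ : F →+* k) (f : F[X]) : Localization.Away f →+* Localization.Away (f.map κ) :=
  IsLocalization.Away.lift f (g := (algebraMap k[X] _).comp (mapRingHom κ))
    (IsLocalization.Away.algebraMap_isUnit (f.map κ))

theorem awm_apply (κ : F →+* k) (f p : F[X]) :
    awm κ f (algebraMap F[X] _ p) = algebraMap k[X] _ (p.map κ) :=
  IsLocalization.Away.lift_eq _ _ p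

theorem po_away (κ : F →+* k) (f : F[X]) : PO κ (algebraMap F (Localization.Away f))
    (algebraMap k (Localization.Away (f.map κ))) (awm κ f) := by
  have h0 : ∀ {K : Type} [Field K] (g : K[X]) (c : K),
      algebraMap K (Localization.Away g) c = algebraMap K[X] _ (C c) := fun _ _ => rfl
  refine ⟨RingHom.ext fun c => ?_, fun Z _ u v e => ?_, fun Z _ w w' h1 h2 => ?_⟩
  · simp only [RingHom.comp_apply, h0, awm_apply, map_C]
  · have h1 : (eval₂RingHom u (v (algebraMap F[X] _ X))).comp (mapRingHom κ) =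
        v.comp (algebraMap F[X] _) := Polynomial.ringHom_ext
      (fun c => by simpa [h0] using RingHom.congr_fun e c) (by simp)
    refine ⟨IsLocalization.Away.lift (f.map κ) (g := eval₂RingHom u (v (algebraMap F[X] _ X)))
      ((RingHom.congr_fun h1 f).symm ▸ (IsLocalization.Away.algebraMap_isUnit f).map v),
      RingHom.ext fun c => ?_, IsLocalization.ringHom_ext (.powers f) (RingHom.ext fun p => ?_)⟩
    · simp [h0]
    · simp only [RingHom.comp_apply, awm_apply, IsLocalization.Away.lift_eq]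
      exact RingHom.congr_fun h1 p
  · refine IsLocalization.ringHom_ext (.powers (f.map κ)) (Polynomial.ringHom_ext' h1 ?_)
    simpa [awm_apply] using RingHom.congr_fun h2 (algebraMap F[X] _ X)

section Bar

variable (F) (R) [Algebra F R]

/-- The base change to the algebraic closure. -/
def Bar : Type := AlgebraicClosure F ⊗[F] R

instance : CommRing (Bar R F) := inferInstanceAs (CommRing (AlgebraicClosure F ⊗[F] R))

/-- The constants. -/
def barL : AlgebraicClosure F →+* Bar R F :=
  algebraMap (AlgebraicClosure F) (AlgebraicClosure F ⊗[F] R)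

/-- The functions defined over `F`. -/
def barR : R →+* Bar R F :=
  (Algebra.TensorProduct.includeRight (R := F) (A := AlgebraicClosure F)).toRingHom

theorem po_bar : PO (algebraMap F (AlgebraicClosure F)) (algebraMap F R) (barL R F) (barR R F) :=
  po_tensor

variable [Fintype F]

/-- The Frobenius element acting on the constants. -/
def frR : Bar R F ≃+* Bar R F :=
  (Algebra.TensorProduct.congr (FiniteField.frobeniusAlgEquivOfAlgebraic F (AlgebraicClosure F))
    (AlgEquiv.refl : R ≃ₐ[F] R)).toRingEquiv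

theorem frR_L (c : AlgebraicClosure F) :
    frR R F (barL R F c) = barL R F (c ^ Fintype.card F) := rfl

theorem frR_R (r : R) : frR R F (barR R F r) = barR R F r :=
  congrArg (· ⊗ₜ[F] r) (map_one (FiniteField.frobeniusAlgEquivOfAlgebraic F (AlgebraicClosure F)))

end Bar

variable {n : ℕ} (A B C : Fin n → F[X]) (D : F[X])

/-- The coordinate ring over the algebraic closure. -/
abbrev Rb : Type := Bar (tot A B C D) F

/-- The geometric base. -/
abbrev Bb : Type :=
  Localization.Away ((bad A B C * D).map (algebraMap F (AlgebraicClosure F)))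

/-- It is the fibre product over the geometric base. -/
theorem exists_fib_Rb : ∃ φ : Bb A B C D →+* Rb A B C D,
    φ.comp (algebraMap (AlgebraicClosure F) _) = barL _ F ∧
    φ.comp (awm _ _) = (barR _ F).comp (algebraMap _ _) ∧
    IsFib φ (fun i => awm _ _ (algebraMap F[X] _ (D * C i * A i)))
      (fun i => awm _ _ (algebraMap F[X] _ (D * C i * B i)))
      (fun i => barR _ F (fv _ _ (.inl i))) fun i => barR _ F (fv _ _ (.inr i)) := by
  have h1 := po_away (algebraMap F (AlgebraicClosure F)) (bad A B C * D)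
  have h2 := po_bar (tot A B C D) F
  rw [IsScalarTower.algebraMap_eq F (Localization.Away (bad A B C * D)) (tot A B C D)] at h2
  obtain ⟨φ, e1, e2⟩ := h1.ex _ _ _ (h2.comm.trans (RingHom.comp_assoc _ _ _).symm)
  exact ⟨φ, e1, e2, (isFib_ring _ _).bc
    (h1.symm.cancel (j' := φ) (by rw [e1]; exact h2.symm) e2.symm)⟩

theorem dom_Rb (h : bad A B C * D ≠ 0) : IsDomain (Rb A B C D) := by
  obtain ⟨φ, -, -, h1⟩ := exists_fib_Rb A B C D
  have := IsLocalization.isDomain_localization (powers_le_nonZeroDivisors_of_noZeroDivisors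
    (map_ne_zero (f := algebraMap F (AlgebraicClosure F)) h))
  exact h1.dom

end

end Pool.Agent.Lib.MP_16ef92_ag.FT
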