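import Mathlib
import Pool.Agent.Lib.MP_16ef92_ag.FT.Cmp

/-! The roots of unity. -/

set_option autoImplicit false
set_option linter.unusedSectionVars false
set_option linter.unusedVariables false
set_option backward.isDefEq.respectTransparency false

namespace Pool.Agent.Lib.MP_16ef92_ag.FT

open CategoryTheory Limits AlgebraicGeometry Opposite Abelian ET EL RS

noncomputable section

/-- Evaluation of functions along a morphism from an affine scheme. -/
def evp {W : Type} [CommRing W] {Y : Scheme.{0}} (p : Xs W ⟶ Y) : Γ(Y, ⊤) →+* W :=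
  (p.appTop ≫ (Scheme.ΓSpecIso (.of W)).hom).hom

theorem evp_spm {W W' : Type} [CommRing W] [CommRing W'] {Y : Scheme.{0}} (θ : W →+* W')
    (p : Xs W ⟶ Y) (a : Γ(Y, ⊤)) : evp (spm θ ≫ p) a = θ (evp p a) := ev_spm θ p a

theorem evp_comp {W : Type} [CommRing W] {Y Y' : Scheme.{0}} (p : Xs W ⟶ Y) (f : Y ⟶ Y')
    (a : Γ(Y', ⊤)) : evp (p ≫ f) a = evp p (f.appTop a) := by
  simp only [evp, Scheme.Hom.comp_appTop]
  rfl

theorem evp_inv {W W' : Type} [CommRing W] [CommRing W'] (p : Xs W' ⟶ Xs W) (a : W) :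
    evp p ((Scheme.ΓSpecIso (.of W)).inv a) = rh p a := by
  conv_lhs => rw [← spm_rh p, ← Category.comp_id (spm (rh p)), evp_spm]
  refine congrArg (rh p) ?_
  exact congrArg (fun t => t.hom a) (Scheme.ΓSpecIso (.of W)).inv_hom_id

variable [Bg] {R : Type} [CommRing R] (n : ℕ) [NeZero (n : OO)]

/-- The values of a root of unity at the geometric points. -/
def muVal {Y : Scheme.{0}} (h : Y ⟶ Xs R) :
    Additive (rootsOfUnity n Γ(Y, ⊤)) →+ (gd (RS.mu n R)).sec h :=
  .mk' (fun u => ⟨fun p => (Additive.ofMul (Units.map (evp p).toMonoidHom u.toMul.1) :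
      Additive OOˣ), fun W _ w => ms_of (ζ := evp w u.toMul.1.1)
        (s := fun y => Additive.ofMul (Units.map (evp (spm y ≫ w)).toMonoidHom u.toMul.1))
        ((map_pow _ _ _).symm.trans ((congrArg (fun t : Γ(Y, ⊤)ˣ => evp w t.1)
          u.toMul.2).trans (map_one _))) fun y => evp_spm y w u.toMul.1.1⟩)
    fun u v => Subtype.ext (funext fun p => congrArg Additive.ofMul
      (map_mul (Units.map (evp p).toMonoidHom) _ _))

variable (R) in
/-- The map of sheaves. -/
def muTo : EL.mu (Xs R) n ⟶ (gd (RS.mu n R)).sh :=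
  mkH (fun U => muVal n U.hom) fun f u => Subtype.ext (funext fun p => congrArg Additive.ofMul
    (Units.ext (evp_comp p f.left _).symm))

theorem muTo_iso (hR : Good R) : IsIso (muTo R n) := by
  have hn : n ≠ 0 := fun h => NeZero.ne (n : OO) (by rw [h, Nat.cast_zero])
  have : Mono (muTo R n) := mono_of_inj _ fun U =>
    (injective_iff_map_eq_zero ((muTo R n).hom.app U).hom).2
    fun (u : Additive (rootsOfUnity n Γ(U.unop.left, ⊤))) hu => by
      have key : ∀ (S : Type) [CommRing S] [Algebra R S] [Algebra.Etale R S]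
          (f : Aff R S ⟶ U.unop), (EL.mu (Xs R) n).obj.map f.op u = 0 := fun S _ _ _ f => by
        have h1 : evp f.left u.toMul.1.1 = 1 :=
          root_ext (n := n) (hR.et (RingHom.etale_algebraMap.2 inferInstance))
            ((map_pow _ _ _).symm.trans ((congrArg (fun t : Γ(U.unop.left, ⊤)ˣ => evp f.left t.1)
              u.toMul.2).trans (map_one _))) (one_pow n) fun y => by
            rw [map_one, ← evp_spm]
            exact congrArg (fun s : (gd (RS.mu n R)).sec U.unop.hom => uv (s.1 (spm y ≫ f.left))) hu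
        refine Subtype.ext (Units.ext ((fa R S).symm.injective ?_))
        exact h1.trans (map_one (fa R S).symm).symm
      refine (EL.mu (Xs R) n).isSeparated U.unop
        ⟨fun W f => (EL.mu (Xs R) n).obj.map f.op u = 0, fun {W W'} f h g => ?_⟩
        (cover_of_loc hR _ fun S _ _ _ f y => ⟨S, inferInstance, RingHom.id S, y,
          RingHom.Etale.of_bijective Function.bijective_id, rfl, fun g hg => key _ _⟩) u 0
        fun W f hf => hf.trans (map_zero _).symm
      rw [op_comp, Functor.map_comp]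
      exact (congrArg ((EL.mu (Xs R) n).obj.map g.op) h).trans (map_zero _)
  have : Sheaf.IsLocallySurjective (muTo R n) := ⟨fun {U} s =>
    cover_of_loc hR _ fun S _ _ _ f y => by
      obtain ⟨W, _, b, z, ζ, hb, hz, h1, h⟩ := (gd (RS.mu n R)).toGam s f y
      refine ⟨W, inferInstance, b, z, hb, hz, fun g hg => ?_⟩
      subst hg
      let u : rootsOfUnity n Γ((Aff R W).left, ⊤) :=
        ⟨Units.ofPowEqOne (fa R W ζ) n (by rw [← map_pow, h1, map_one]) hn,
          Units.ext (by rw [Units.val_pow_eq_pow_val, Units.val_ofPowEqOne, ← map_pow, h1, map_one,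
            Units.val_one])⟩
      refine ⟨Additive.ofMul u, Subtype.ext (funext fun q => congrArg Additive.ofMul
        (Units.ext ((evp_inv q ζ).trans ((h (rh q)).symm.trans ?_))))⟩
      change uv (Subtype.val (s : (gd (RS.mu n R)).sec U.hom) _) =
        uv (Subtype.val (s : (gd (RS.mu n R)).sec U.hom) (q ≫ spm (g : S →+* W) ≫ f.left))
      rw [← spm_comp, spm_rh, Category.assoc]⟩
  exact isIso_of_mono_of_epi _

/-- Etale cohomology of the roots of unity is an equivariant quotient of the cohomology of the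
rigid system. -/
theorem exists_cmp (hR : Good R) (q : ℕ) :
    ∃ c : H q (RS.mu n R) →+ (EL.mu (Xs R) n).H q, Function.Surjective c ∧
      ∀ (σ : R ≃+* R) (x : H q (RS.mu n R)),
        actH (spI σ) n q (c x) = c (Hmap q (RS.muMap n (σ : R →+* R)) x) := by
  have := muTo_iso n hR
  refine ⟨(Sheaf.H.map (inv (muTo R n)) q).comp (cmp hR q _), fun ξ => ?_, fun σ x => ?_⟩
  · obtain ⟨x, hx⟩ := cmp_surj (hR := hR) q _ (Sheaf.H.map (muTo R n) q ξ)
    refine ⟨x, (congrArg (Sheaf.H.map (inv (muTo R n)) q) hx).trans ?_⟩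
    rw [← Sheaf.H.map_comp_apply, IsIso.hom_inv_id, Sheaf.H.map_id_apply]
  · have e : EL.muMap (spI σ) n ≫ muTo R n =
        (push (spI σ)).map (muTo R n) ≫ (gm (RS.muMap n (σ : R →+* R))).tsh :=
      hom_ext' fun U s => rfl
    refine (tact_pre (push (spI σ)) (zzMap (spI σ)) (EL.muMap (spI σ) n) (inv (muTo R n))
      (cmp hR q _ x)).trans (Eq.trans ?_ (congrArg (Sheaf.H.map (inv (muTo R n)) q)
        (cmp_act q _ x).symm))
    refine Eq.trans ?_ (tact_post _ _ _ _ _).symm
    congr 1
    rw [IsIso.eq_comp_inv, Category.assoc, e, ← Category.assoc, ← Functor.map_comp,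
      IsIso.inv_hom_id, CategoryTheory.Functor.map_id, Category.id_comp]

end

end Pool.Agent.Lib.MP_16ef92_ag.FT
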