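import Mathlib
import Pool.Agent.Lib.MP_16ef92_ag.FT.Stm
import Pool.Agent.Lib.MP_16ef92_ag.FT.Mu
import Pool.Agent.Lib.MP_16ef92_ag.GV.Unif

/-! From the relation at each level to the statement on etale cohomology. -/

set_option autoImplicit false
set_option linter.unusedSectionVars false
set_option linter.unusedVariables false
set_option backward.isDefEq.respectTransparency false

namespace Pool.Agent.Lib.MP_16ef92_ag.FT

open CategoryTheory AlgebraicGeometry Module EL RS GV AL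

noncomputable section

variable {l : ℕ} [hl : Fact l.Prime] {I : Type} [Fintype I] {Z : I → Type}
  [∀ i, AddCommGroup (Z i)] [∀ i, Module ℤ_[l] (Z i)] {G : ∀ i, End ℤ_[l] (Z i)}
  {B : ∀ i, Submodule ℤ_[l] (Z i)} {e k : ℕ}

theorem tors_of {H : ℕ → Type} [∀ m, AddCommGroup (H m)] {x : ∀ m, H m}
    (hp : ∀ m, l ^ m • x m = 0) (hk : k ≠ 0) (h : ∀ m, k • x m = 0) : Tors l x := by
  obtain ⟨e, k', hk', rfl⟩ := Nat.exists_eq_pow_mul_and_not_dvd hk l hl.out.ne_one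
  refine ⟨e, funext fun m => AddMonoid.addOrderOf_eq_one_iff.1 (Nat.eq_one_of_dvd_coprimes
    (((Nat.Prime.coprime_iff_not_dvd hl.out).2 hk').pow_left m) ?_ ?_)⟩
  · rw [addOrderOf_dvd_iff_nsmul_eq_zero, Pi.smul_apply, smul_comm, hp, smul_zero]
  · rw [addOrderOf_dvd_iff_nsmul_eq_zero, Pi.smul_apply, smul_comm, ← mul_smul, h]

theorem semiT_of_ln (h : Ln G B e) {H : ℕ → Type} [∀ m, AddCommGroup (H m)]
    {φ : ∀ m, H m →+ H m} {Cl : ∀ m, H m → (∀ i, Z i) → Prop} (hR : ∀ m, Rl G B m (φ m) (Cl m))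
    (tr : ∀ m, H (m + 1) →+ H m) (hp : ∀ m (x : H m), l ^ m • x = 0) (hk : k ≠ 0)
    (ht : ∀ m x, ∃ z, Cl m (k • x) z) : SemiT l (Fintype.card I) tr fun m => φ m := by
  have h0 : l ≠ 0 := hl.out.ne_zero
  refine ⟨fun x _ ⟨a, ha⟩ => tors_of (fun m => hp m _) (k := l ^ a * l ^ e * k) (by positivity)
    fun m => ?_, fun x hx => ?_⟩
  · obtain ⟨z, hz⟩ := ht m (x m)
    rw [mul_smul, ← map_nsmul]
    refine h.ss (hR m) hz ?_
    rw [map_nsmul, map_nsmul, smul_comm, show l ^ a • φ m (φ m (x m)) = 0 from congrFun ha m,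
      smul_zero]
  · choose a ha using fun i => (hx i).2
    obtain ⟨v, hv, h1⟩ := h.dep hR tr (J := Fin (Fintype.card I + 1)) (by simp)
      (fun i => (hx i).1) (fun i m => hp m _) hk (fun i m => ht m _) (a := ∏ i, l ^ a i)
      (by positivity) fun i m => by
        rw [← Finset.prod_erase_mul _ _ (Finset.mem_univ i), mul_smul,
          show l ^ a i • φ m (x i m) = 0 from congrFun (ha i) m, smul_zero]
    refine ⟨v, hv, 0, funext fun m => ?_⟩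
    rw [pow_zero, one_smul, Finset.sum_apply]
    exact h1 m

variable [Bg] {R : Type} [CommRing R]

/-- The operator `q^j σ - q` on the cohomology of the roots of unity. -/
def opT (n : ℕ) [NeZero (n : OO)] (σ : R →+* R) (q j : ℕ) :
    H (2 * j) (RS.mu n R) →+ H (2 * j) (RS.mu n R) :=
  q ^ j • Hmap (2 * j) (RS.muMap n σ) - q • AddMonoidHom.id _

theorem opT_apply (n : ℕ) [NeZero (n : OO)] (σ : R →+* R) (q j : ℕ) (x : H (2 * j) (RS.mu n R)) :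
    opT n σ q j x = q ^ j • Hmap (2 * j) (RS.muMap n σ) x - q • x := rfl

theorem semiOn_of_rl (hR : Good R) (σ : R ≃+* R) (h0 : (l : OO) ≠ 0) (q j : ℕ) (h : Ln G B e)
    (hk : k ≠ 0) (hL : ∀ (m : ℕ) [NeZero ((l ^ m : ℕ) : OO)], ∃ Cl,
      Rl G B m (opT (l ^ m) (σ : R →+* R) q j) Cl ∧ ∀ x, ∃ z, Cl (k • x) z) :
    SemiOn l q j (Fintype.card I) (spI σ) := by
  have : ∀ m : ℕ, NeZero ((l ^ m : ℕ) : OO) := fun m => ⟨by exact_mod_cast pow_ne_zero m h0⟩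
  choose Cl h1 h2 using fun m => hL m
  choose c h3 h4 using fun m => exists_cmp (l ^ m) hR (2 * j)
  have h5 : ∀ m x, q ^ j • actH (spI σ) (l ^ m) (2 * j) (c m x) - q • c m x =
      c m (opT (l ^ m) (σ : R →+* R) q j x) := fun m x => by
    rw [h4, opT_apply, map_sub, map_nsmul, map_nsmul]
  let φ : ∀ m, (EL.mu (Xs R) (l ^ m)).H (2 * j) →+ (EL.mu (Xs R) (l ^ m)).H (2 * j) := fun m =>
    .mk' (fun x => q ^ j • actH (spI σ) (l ^ m) (2 * j) x - q • x) fun x y => by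
      obtain ⟨x, rfl⟩ := h3 m x
      obtain ⟨y, rfl⟩ := h3 m y
      rw [← map_add, h5, h5, h5, map_add, map_add]
  refine semiT_of_ln h (φ := φ) (Cl := fun m ξ z => ∃ x, c m x = ξ ∧ Cl m x z) (fun m => ⟨?_, ?_, ?_⟩)
    _ (fun m x => ?_) hk fun m x => ?_
  · rintro _ z _ z' ⟨x, rfl, hx⟩ ⟨x', rfl, hx'⟩
    exact ⟨x - x', map_sub _ _ _, (h1 m).sub _ _ _ _ hx hx'⟩
  · rintro _ z ⟨x, rfl, hx⟩
    exact ⟨_, (h5 m x).symm, (h1 m).act _ _ hx⟩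
  · rintro _ z ⟨x, rfl, hx⟩ hz
    rw [(h1 m).kill _ _ hx hz, map_zero]
  · obtain ⟨x, rfl⟩ := h3 m x
    rw [← map_nsmul, H_tor (mu_tor _), map_zero]
  · obtain ⟨x, rfl⟩ := h3 m x
    obtain ⟨z, hz⟩ := h2 m x
    exact ⟨z, _, map_nsmul _ _ _, hz⟩

/-- The form with Galois cocycles. -/
theorem semiOn_of_rlC {Γ : Type} [Group Γ] {Ω : Fam Γ} {τ : Γ ≃* Γ} {d : I → ℕ}
    {ρ : ∀ i, Γ →* End ℤ_[l] (Fin (d i) → ℤ_[l])} {ψ : ∀ i, End ℤ_[l] (Fin (d i) → ℤ_[l])}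
    {u b : ℤ_[l]} (h2 : AL.H2 Ω l) (hC : ∀ i, Cr Ω (ρ i)) (hτ : Ω.Inv τ)
    (hψ : ∀ i g, ψ i * ρ i (τ g) = ρ i g * ψ i) (hf : ∀ i, Module.Finite ℤ_[l] (Zi Ω (ρ i)))
    (hS : ∀ i, Sim (cob (hC i)) (u • PsiI hτ (hψ i))) (hb : b ≠ 0)
    (hR : Good R) (σ : R ≃+* R) (h0 : (l : OO) ≠ 0) (q j : ℕ) (hk : k ≠ 0)
    (hL : ∀ (m : ℕ) [NeZero ((l ^ m : ℕ) : OO)], ∃ Cl,
      RlC Ω τ ρ ψ u b m (opT (l ^ m) (σ : R →+* R) q j) Cl ∧ ∀ x, ∃ c, Cl (k • x) c) :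
    SemiOn l q j (Fintype.card I) (spI σ) := by
  obtain ⟨e, he⟩ := ln_of_sim h2 hC hτ hψ hf hS hb
  refine semiOn_of_rl hR σ h0 q j he hk fun m _ => ?_
  obtain ⟨Cl, h1, h3⟩ := hL m
  exact ⟨_, h1.rl hC hτ hψ, fun x => (h3 x).elim fun c hc => h1.lift h2 hC hc⟩

/-- Degree zero. -/
theorem semiOn_zero [IsDomain R] (hR : Good R) (σ : R ≃+* R) (h0 : (l : OO) ≠ 0) (q : ℕ)
    (hζ : ∀ m, ∃ ζ : R, IsPrimitiveRoot ζ (l ^ m) ∧ σ ζ = ζ ^ q) : SemiOn l q 0 1 (spI σ) := by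
  have hn : ∀ m, l ^ m ≠ 0 := fun m => pow_ne_zero m hl.out.ne_zero
  refine semiOn_of_rl (I := Unit) (Z := fun _ => ℤ_[l]) (G := 0) (B := ⊥) (e := 0) hR σ h0 q 0
    ⟨fun i z _ => by simp, 1, fun _ => 1, by simp, fun i => by simp, fun i z => ⟨z, by simp⟩⟩
    one_ne_zero fun m _ => ?_
  obtain ⟨ζ, h1, h2⟩ := hζ m
  have := NeZero.mk (hn m)
  let t : Pnt R → Additive OOˣ := fun y => Additive.ofMul (Units.map y.toMonoidHom
    (h1.isUnit (hn m)).unit)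
  let w : H (2 * 0) (RS.mu (l ^ m) R) := ⟨t, ms_of (s := t) h1.pow_eq_one fun y => rfl⟩
  have hw : l ^ m • w = 0 := H_tor (mu_tor _) _ w
  have h3 : ∀ x : H (2 * 0) (RS.mu (l ^ m) R), ∃ a : ℕ, x = a • w := fun x => by
    obtain ⟨ξ, h4, h5⟩ := MS.root hR x.2
    obtain ⟨a, -, rfl⟩ := h1.eq_pow_of_pow_eq_one h4
    refine ⟨a, Subtype.ext (funext fun y => Units.ext ((h5 y).trans ?_))⟩
    rw [map_pow]
    rfl
  have h4 : opT (l ^ m) (σ : R →+* R) q 0 w = 0 := by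
    rw [opT_apply, pow_zero, one_smul, sub_eq_zero]
    refine Subtype.ext (funext fun y => Units.ext ?_)
    change y (σ ζ) = y ζ ^ q
    rw [h2, map_pow]
  refine ⟨fun x z => x = (PadicInt.toZModPow m (z ())).val • w, ⟨?_, ?_, ?_⟩, fun x => ?_⟩
  · rintro _ z _ z' rfl rfl
    rw [sub_eq_iff_eq_add, ← add_smul, eq_comm, ← unif_val hw (a := z ())]
    rw [Nat.cast_add]
    convert dvd_add (unif_dvd m ((z - z') ())) (unif_dvd m (z' ())) using 1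
    rw [Pi.sub_apply]
    ring
  · rintro _ z rfl
    rw [map_nsmul, h4, smul_zero]
    simp
  · rintro _ z rfl hz
    obtain ⟨y, hy⟩ := hz ()
    rw [unif_val hw (n := 0) ⟨y, by simpa [sub_eq_zero] using hy⟩, zero_smul]
  · obtain ⟨a, rfl⟩ := h3 x
    exact ⟨fun _ => a, (one_smul _ _).trans (unif_val hw (n := a) (by simp)).symm⟩

end

end Pool.Agent.Lib.MP_16ef92_ag.FT
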