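import Mathlib
import Pool.Agent.Lib.MP_16ef92_ag.FT.Top0
import Pool.Agent.Lib.MP_16ef92_ag.FT.Dom
import Pool.Agent.Lib.MP_16ef92_ag.GV.Iface

/-! The relation between etale cohomology and Galois cocycles at each level. -/

set_option autoImplicit false
set_option linter.unusedSectionVars false
set_option linter.unusedVariables false

namespace Pool.Agent.Lib.MP_16ef92_ag.FT

open Polynomial RS GV AL

noncomputable section

variable {F : Type} [Field F] [Fintype F] {n : ℕ}

/-- Subsets of a given size. -/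
abbrev Sb (n k : ℕ) : Type := {S : Finset (Fin n) // S.card = k}

variable [Clos F] [hq : Fact (Odd (Fintype.card F))] {A B C : Fin n → F[X]} {D : F[X]} {l : ℕ}
  [Fact l.Prime]

/-- The tensor product of the Tate modules with index in `S`. -/
abbrev tmS (T : ∀ i, TM l (curve (A i) (B i) (D * C i))) (S : Finset (Fin n)) {d : ℕ}
    (e : Fin d ≃ (S → Fin 2)) : Gam F →* Module.End ℤ_[l] (Fin d → ℤ_[l]) :=
  tm (A := fun i : S => A i) (B := fun i => B i) (E := fun i => D * C i) e fun i => T i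

variable (A B C D l) in
/-- The relation in degree `2 j + 2`. -/
def Lvl [Bg] (R : Type) [CommRing R] [Algebra F R] (j : ℕ) : Prop :=
  ∀ (T : ∀ i, TM l (curve (A i) (B i) (D * C i))) (d : Sb n (2 * j + 1) → ℕ)
    (e : ∀ S, Fin (d S) ≃ (S.1 → Fin 2)) (u : ℤ_[l]), u * (Fintype.card F : ℤ_[l]) ^ j = 1 →
    ∃ (s : Gam F) (k : ℕ), Fr s (Fintype.card F) ∧ k ≠ 0 ∧
      ∀ (m : ℕ) [NeZero ((l ^ m : ℕ) : OO)], ∃ Cl,
        RlC (fam (bad A B C * D)) (sgm s) (fun S => rg (tmS T S.1 (e S)))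
          (fun S => tmS T S.1 (e S) s) u (Fintype.card F) m
          (opT (l ^ m) (frR R F : Bar R F →+* Bar R F) (Fintype.card F) (j + 1)) Cl ∧
        ∀ x, ∃ c, Cl (k • x) c

end

end Pool.Agent.Lib.MP_16ef92_ag.FT
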