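import Mathlib
import Pool.Agent.Lib.MP_16ef92_ag.FT.Stm
import Pool.Agent.Lib.MP_16ef92_ag.ET.Smo

set_option autoImplicit false
set_option linter.unusedSectionVars false
set_option linter.unusedVariables false

namespace Pool.Agent.Lib.MP_16ef92_ag.FT

open Polynomial AlgebraicGeometry

noncomputable section

theorem smo_poly (F : Type) [CommRing F] :
    RingHom.IsStandardSmoothOfRelativeDimension 1 (algebraMap F F[X]) := by
  let v : Empty → MvPolynomial Unit F := Empty.elim
  let P := Algebra.PreSubmersivePresentation.naive (v := v) Empty.elim fun i => i.elim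
  have h : Algebra.IsStandardSmoothOfRelativeDimension 1 F
      (MvPolynomial Unit F ⧸ Ideal.span (Set.range v)) := by
    refine Algebra.SubmersivePresentation.isStandardSmoothOfRelativeDimension ⟨P, ?_⟩ ?_
    · rw [Algebra.PreSubmersivePresentation.jacobian_eq_jacobiMatrix_det, Matrix.det_isEmpty,
        map_one]
      exact isUnit_one
    · simp [Algebra.Presentation.dimension]
  have e : Ideal.span (Set.range v) = ⊥ := by rw [Set.range_eq_empty, Ideal.span_empty]
  rw [RingHom.isStandardSmoothOfRelativeDimension_algebraMap]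
  exact Algebra.IsStandardSmoothOfRelativeDimension.of_algEquiv 1
    (((Ideal.quotientEquivAlgOfEq F e).trans (AlgEquiv.quotientBot F _)).trans
      (MvPolynomial.uniqueAlgEquiv F Unit))

theorem smo_sing {K : Type} [CommRing K] [IsDomain K] {x y a b : K} (t2 : (2 : K) ≠ 0)
    (e0 : y ^ 2 - x * (x - a) * (x - b) = 0) (e1 : 2 * y = 0)
    (hc : x * (x - b) + (x * (x - a) + (x - a) * (x - b)) = 0) : a * b * (a - b) = 0 := by
  have hy : y = 0 := (mul_eq_zero.1 e1).resolve_left t2
  have he : x * (x - a) * (x - b) = 0 := by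
    rw [hy] at e0
    linear_combination -e0
  rcases mul_eq_zero.1 he with h | h
  · rcases mul_eq_zero.1 h with h | h
    · rw [h] at hc
      linear_combination (a - b) * hc
    · rw [sub_eq_zero.1 h] at hc
      linear_combination b * hc
  · rw [sub_eq_zero.1 h] at hc
    linear_combination (-a) * hc

/-- The fibre product of the curves is locally standard smooth over the base. -/
theorem fib_loc {R ι : Type} [CommRing R] [Fintype ι] (a b : ι → R) (h2 : IsUnit (2 : R))
    (h : ∀ i, IsUnit (a i * b i * (a i - b i))) :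
    RingHom.Locally (RingHom.IsStandardSmoothOfRelativeDimension (Fintype.card ι))
      (algebraMap R (fibRing a b)) := by
  classical
  let v : ι → MvPolynomial (ι ⊕ ι) R := fun i => MvPolynomial.X (Sum.inr i) ^ 2 -
    MvPolynomial.X (Sum.inl i) * (MvPolynomial.X (Sum.inl i) - MvPolynomial.C (a i)) *
      (MvPolynomial.X (Sum.inl i) - MvPolynomial.C (b i))
  let c : Bool → ι → ι ⊕ ι := fun e i => Bool.rec (Sum.inl i) (Sum.inr i) e
  have hc : ∀ e i, Sum.elim id id (c e i) = i := fun e i => by cases e <;> rfl
  have hi : ∀ e : ι → Bool, Function.Injective fun i => c (e i) i := fun e i j hij => by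
    rw [← hc (e i) i, ← hc (e j) j]
    exact congrArg _ hij
  let P := fun e : ι → Bool => Algebra.PreSubmersivePresentation.naive (v := v) _ (hi e)
  have hd : ∀ e, (P e).dimension = Fintype.card ι := fun e => by
    simp [Algebra.Presentation.dimension]
  have hz : ∀ e i j, i ≠ j → (v j).pderiv (c e i) = 0 := fun e i j hij => by
    have h1 : Sum.inl j ≠ c e i := fun h => hij ((hc e i).symm.trans (congrArg _ h.symm))
    have h3 : Sum.inr j ≠ c e i := fun h => hij ((hc e i).symm.trans (congrArg _ h.symm))
    simp only [v, map_sub, Derivation.leibniz, Derivation.leibniz_pow, MvPolynomial.pderiv_C,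
      MvPolynomial.pderiv_X_of_ne h1, MvPolynomial.pderiv_X_of_ne h3, smul_zero, add_zero, sub_zero]
  have hj : ∀ e, (P e).jacobian = Ideal.Quotient.mk _ (∏ i, (v i).pderiv (c (e i) i)) := fun e => by
    have : (P e).jacobiMatrix = Matrix.diagonal fun i => (v i).pderiv (c (e i) i) := by
      ext1 i j
      rw [Algebra.PreSubmersivePresentation.jacobiMatrix_naive, Matrix.diagonal_apply]
      split_ifs with hij
      · rw [hij]
      · exact hz _ i j hij
    rw [Algebra.PreSubmersivePresentation.jacobian_eq_jacobiMatrix_det, this, Matrix.det_diagonal]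
    rfl
  refine ⟨Set.range fun e => (P e).jacobian, ?_, ?_⟩
  · by_contra hne
    obtain ⟨m, hm, hle⟩ := Ideal.exists_le_maximal _ hne
    let φ : MvPolynomial (ι ⊕ ι) R →ₐ[R] _ :=
      (Ideal.Quotient.mkₐ R m).comp (Ideal.Quotient.mkₐ R _)
    have k : ∀ p, Ideal.Quotient.mk (Ideal.span (Set.range v)) p ∈ m → φ p = 0 := fun p hp =>
      Ideal.Quotient.eq_zero_iff_mem.2 hp
    have r : ∀ j, φ (v j) = 0 := fun j => k _ (by
      rw [Ideal.Quotient.eq_zero_iff_mem.2 (Ideal.subset_span (Set.mem_range_self j))]
      exact zero_mem _)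
    have t2 : (2 : fibRing a b ⧸ m) ≠ 0 := by
      have := (h2.map (algebraMap R (fibRing a b ⧸ m))).ne_zero
      rwa [map_ofNat] at this
    have ex : ∀ i, ∃ e, φ ((v i).pderiv (c e i)) ≠ 0 := fun i => by
      by_contra hn
      have e0 := r i
      have e1 : φ ((v i).pderiv (Sum.inr i)) = 0 := not_not.1 fun h => hn ⟨true, h⟩
      have e2 : φ ((v i).pderiv (Sum.inl i)) = 0 := not_not.1 fun h => hn ⟨false, h⟩
      simp only [v, Derivation.map_sub, Derivation.leibniz, Derivation.leibniz_pow,
        MvPolynomial.pderiv_C, MvPolynomial.pderiv_X_self,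
        MvPolynomial.pderiv_X_of_ne (Sum.inl_ne_inr (a := i) (b := i)),
        MvPolynomial.pderiv_X_of_ne (Sum.inr_ne_inl (a := i) (b := i))] at e1 e2
      simp only [v, map_sub, map_mul, map_add, map_pow, map_one, map_zero, smul_eq_mul,
        nsmul_eq_mul, Nat.cast_ofNat, map_ofNat, MvPolynomial.algHom_C] at e0 e1 e2
      have n0 := ((h i).map (algebraMap R (fibRing a b ⧸ m))).ne_zero
      rw [map_mul, map_mul, map_sub] at n0
      exact n0 (smo_sing t2 e0 (by linear_combination e1) (by linear_combination -e2))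
    choose e he using ex
    have := k _ (hle (Ideal.subset_span ⟨e, hj e⟩))
    rw [map_prod] at this
    exact Finset.prod_ne_zero_iff.2 (fun i _ => he i) this
  · rintro t ⟨e, rfl⟩
    exact ET.smo_away (P e) (hd e)

/-- The variety is smooth of dimension `n + 1`. -/
theorem tot_smooth {F : Type} [Field F] (h2 : (2 : F) ≠ 0) {n : ℕ} (A B C : Fin n → F[X])
    (D : F[X]) :
    SmoothOfRelativeDimension (n + 1)
      (Spec.map (CommRingCat.ofHom (algebraMap F (tot A B C D)))) := by
  rw [HasRingHomProperty.Spec_iff (P := @SmoothOfRelativeDimension (n + 1))]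
  have u2 : IsUnit (2 : Localization.Away (bad A B C * D)) := by
    have := (isUnit_iff_ne_zero.2 h2).map (algebraMap F (Localization.Away (bad A B C * D)))
    rwa [map_ofNat] at this
  have hu := IsLocalization.Away.algebraMap_isUnit (S := Localization.Away (bad A B C * D))
    (bad A B C * D)
  obtain ⟨s, hs, hP⟩ := fib_loc (R := Localization.Away (bad A B C * D))
    (fun i => algebraMap F[X] _ (D * C i * A i)) (fun i => algebraMap F[X] _ (D * C i * B i)) u2
    fun i => by
      rw [← map_sub, ← map_mul, ← map_mul]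
      refine isUnit_of_dvd_unit (map_dvd _ ?_) (by simpa only [map_pow] using hu.pow 3 :
        IsUnit (algebraMap F[X] _ ((bad A B C * D) ^ 3)))
      obtain ⟨w, hw⟩ : A i * B i * (A i - B i) * C i ∣ bad A B C :=
        Finset.dvd_prod_of_mem _ (Finset.mem_univ i)
      exact ⟨(A i * B i * (A i - B i)) ^ 2 * w ^ 3, by rw [hw]; ring⟩
  refine ⟨s, hs, fun t ht => ?_⟩
  have h := (hP t ht).comp
    ((RingHom.IsStandardSmoothOfRelativeDimension.algebraMap_isLocalizationAway
      (Rᵣ := Localization.Away (bad A B C * D)) (bad A B C * D)).comp (smo_poly F))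
  rw [Fintype.card_fin, zero_add, RingHom.comp_assoc, ← IsScalarTower.algebraMap_eq F F[X],
    ← IsScalarTower.algebraMap_eq F (Localization.Away (bad A B C * D))] at h
  exact h

end

end Pool.Agent.Lib.MP_16ef92_ag.FT
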