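import Mathlib
import Pool.Agent.Lib.MP_16ef92_ag.FT.Smo
import Pool.Agent.Lib.MP_16ef92_ag.FT.Dom
import Pool.Agent.Lib.MP_16ef92_ag.TP.Prs

/-! The two presentations of the coordinate ring agree. -/

set_option autoImplicit false
set_option linter.unusedSectionVars false
set_option linter.unusedVariables false

namespace Pool.Agent.Lib.MP_16ef92_ag.FT

open Polynomial CategoryTheory AlgebraicGeometry TensorProduct

noncomputable section

variable {F : Type} [Field F] {n : ℕ} (A B C : Fin n → F[X]) (D : F[X])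

/-- The coordinates. -/
def vv (i : Fin 2 ⊕ Fin n ⊕ Fin n) : var A B C D := Ideal.Quotient.mk _ (MvPolynomial.X i)

theorem vv_aeval (P : F[X]) : aeval (vv A B C D (.inl 0)) P =
    Ideal.Quotient.mk (varIdeal A B C D) (aeval (MvPolynomial.X (Sum.inl 0)) P) :=
  aeval_algHom_apply (Ideal.Quotient.mkₐ F (varIdeal A B C D)) _ P

theorem vv_inv : aeval (vv A B C D (.inl 0)) (bad A B C * D) * vv A B C D (.inl 1) = 1 := by
  rw [mul_comm, vv_aeval, vv, ← map_mul, ← map_one (Ideal.Quotient.mk (varIdeal A B C D))]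
  exact Ideal.Quotient.eq.2 (Ideal.subset_span (Set.mem_insert _ _))

/-- The structure map from the base. -/
def vb : Localization.Away (bad A B C * D) →+* var A B C D :=
  IsLocalization.Away.lift (bad A B C * D) (g := (aeval (vv A B C D (.inl 0))).toRingHom)
    (IsUnit.of_mul_eq_one _ (vv_inv A B C D))

theorem vb_alg (P : F[X]) : vb A B C D (algebraMap F[X] _ P) = aeval (vv A B C D (.inl 0)) P :=
  IsLocalization.Away.lift_eq _ _ P

theorem vb_inv : vb A B C D (IsLocalization.Away.invSelf (bad A B C * D)) =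
    vv A B C D (.inl 1) := by
  refine (IsUnit.of_mul_eq_one _ (vv_inv A B C D)).mul_left_cancel ?_
  rw [vv_inv, ← vb_alg, ← map_mul, IsLocalization.Away.mul_invSelf, map_one]

theorem vb_C (c : F) : vb A B C D (algebraMap F _ c) = algebraMap F _ c := by
  rw [IsScalarTower.algebraMap_apply F F[X] (Localization.Away (bad A B C * D)), vb_alg,
    AlgHom.commutes]

theorem prs_var : TP.Prs (fun i => algebraMap F[X] _ (D * C i * A i))
    (fun i => algebraMap F[X] _ (D * C i * B i)) (vb A B C D)
    (fun i => vv A B C D (.inr (.inl i))) fun i => vv A B C D (.inr (.inr i)) := by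
  refine ⟨fun i => ?_, fun Z _ ψ x y h => ?_, fun Z _ χ χ' h1 h2 h3 => ?_⟩
  · simp only [Function.comp_apply, vb_alg, vv_aeval]
    simp only [vv, ← map_pow, ← map_sub, ← map_mul]
    exact Ideal.Quotient.eq.2 (Ideal.subset_span (Set.mem_insert_of_mem _ ⟨i, rfl⟩))
  · let w : MvPolynomial (Fin 2 ⊕ Fin n ⊕ Fin n) F →+* Z :=
      MvPolynomial.eval₂Hom (ψ.comp (algebraMap F _)) (Sum.elim ![ψ (algebraMap F[X] _ X),
        ψ (IsLocalization.Away.invSelf (bad A B C * D))] (Sum.elim x y))
    have hw : ∀ i, w (MvPolynomial.X i) = _ := fun i => MvPolynomial.eval₂Hom_X' _ _ i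
    have h0 : w.comp (aeval (MvPolynomial.X (Sum.inl 0))).toRingHom =
        ψ.comp (algebraMap F[X] _) := by
      refine Polynomial.ringHom_ext (fun c => ?_) ?_
      · change w (aeval _ (Polynomial.C c)) = _
        rw [aeval_C]
        exact MvPolynomial.eval₂Hom_C _ _ c
      · change w (aeval _ X) = _
        rw [aeval_X]
        exact hw _
    have h1 : ∀ P : F[X], w (aeval (MvPolynomial.X (Sum.inl 0)) P) = ψ (algebraMap F[X] _ P) :=
      fun P => RingHom.congr_fun h0 P
    refine ⟨Ideal.Quotient.lift _ w fun t ht => ?_, IsLocalization.ringHom_ext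
      (Submonoid.powers (bad A B C * D)) (RingHom.ext fun P => ?_), fun i => hw _, fun i => hw _⟩
    · refine (Ideal.span_le (I := RingHom.ker w)).2 ?_ ht
      rintro _ (rfl | ⟨i, rfl⟩)
      · rw [SetLike.mem_coe, RingHom.mem_ker, map_sub, map_mul, h1, hw, map_one, sub_eq_zero,
          mul_comm]
        exact (map_mul ψ _ _).symm.trans
          ((congrArg ψ (IsLocalization.Away.mul_invSelf _)).trans (map_one ψ))
      · rw [SetLike.mem_coe, RingHom.mem_ker, map_sub, map_mul, map_mul, map_sub, map_sub, h1, h1,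
          map_pow, hw, hw, sub_eq_zero]
        exact h i
    · rw [RingHom.comp_apply, RingHom.comp_apply, vb_alg, vv_aeval, Ideal.Quotient.lift_mk]
      exact h1 P
  · have h4 : ∀ r, χ (vb A B C D r) = χ' (vb A B C D r) := fun r => RingHom.congr_fun h1 r
    refine Ideal.Quotient.ringHom_ext (MvPolynomial.ringHom_ext (fun c => ?_) ?_)
    · have := h4 (algebraMap F _ c)
      rw [vb_C] at this
      exact this
    · rintro (i | i | i)
      · fin_cases i
        · have := h4 (algebraMap F[X] _ X)
          rw [vb_alg, aeval_X] at this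
          exact this
        · have := h4 (IsLocalization.Away.invSelf (bad A B C * D))
          rw [vb_inv] at this
          exact this
      · exact h2 i
      · exact h3 i

theorem exists_var : Nonempty (tot A B C D ≃ₐ[F] var A B C D) := by
  obtain ⟨e, h, -⟩ := (TP.prs_fib _ _).equiv (prs_var A B C D)
  refine ⟨AlgEquiv.ofRingEquiv (f := e) fun c => ?_⟩
  rw [IsScalarTower.algebraMap_apply F (Localization.Away (bad A B C * D)) (tot A B C D)]
  exact (RingHom.congr_fun h _).trans (vb_C A B C D c)

variable {R S : Type} [CommRing R] [CommRing S] [Algebra F R] [Algebra F S]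

theorem smooth_congr (ι : R ≃ₐ[F] S) {k : ℕ}
    (h : SmoothOfRelativeDimension k (Spec.map (CommRingCat.ofHom (algebraMap F R)))) :
    SmoothOfRelativeDimension k (Spec.map (CommRingCat.ofHom (algebraMap F S))) := by
  have e : CommRingCat.ofHom (algebraMap F S) =
      CommRingCat.ofHom (algebraMap F R) ≫ ι.toRingEquiv.toCommRingCatIso.hom :=
    CommRingCat.hom_ext (RingHom.ext fun c => (ι.commutes c).symm)
  rw [e, Spec.map_comp]
  exact (MorphismProperty.cancel_left_of_respectsIso (@SmoothOfRelativeDimension k) _ _).2 h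

/-- The isomorphism after base change. -/
def barE (ι : R ≃ₐ[F] S) : Bar R F ≃+* Bar S F :=
  (Algebra.TensorProduct.congr (AlgEquiv.refl : AlgebraicClosure F ≃ₐ[F] _) ι).toRingEquiv

theorem barE_fr [Fintype F] (ι : R ≃ₐ[F] S) (z : Bar R F) :
    frR S F (barE ι z) = barE ι (frR R F z) := by
  induction z using TensorProduct.induction_on with
  | zero => exact (congrArg _ (map_zero (barE ι))).trans ((map_zero _).trans
      ((congrArg _ (map_zero (frR R F))).trans (map_zero (barE ι))).symm)
  | tmul c r => rfl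
  | add a b ha hb =>
    exact (congrArg _ (map_add (barE ι) a b)).trans ((map_add _ _ _).trans
      ((congrArg₂ _ ha hb).trans ((congrArg _ (map_add (frR R F) a b)).trans
        (map_add (barE ι) _ _)).symm))

theorem prs_congr {K X X' κ : Type} [CommRing K] [CommRing X] [CommRing X'] {a b : κ → K}
    {φ : K →+* X} {x y : κ → X} (h : TP.Prs a b φ x y) (ε : X ≃+* X') :
    TP.Prs a b (ε.toRingHom.comp φ) (ε ∘ x) (ε ∘ y) := by
  refine ⟨h.eq.map ε.toRingHom, fun Z _ ψ x' y' e => ?_, fun Z _ χ χ' h1 h2 h3 => ?_⟩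
  · obtain ⟨w, w1, w2, w3⟩ := h.ex Z ψ x' y' e
    refine ⟨w.comp ε.symm.toRingHom, ?_, fun i => ?_, fun i => ?_⟩
    · rw [← w1]
      ext r
      simp
    · simp [w2]
    · simp [w3]
  · have := h.uq Z (χ.comp ε.toRingHom) (χ'.comp ε.toRingHom) h1 h2 h3
    refine RingHom.ext fun z => ?_
    obtain ⟨z, rfl⟩ := ε.surjective z
    exact RingHom.congr_fun this z

end

end Pool.Agent.Lib.MP_16ef92_ag.FT
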