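import Mathlib
import Pool.Agent.Lib.MP_16ef92_ag.FT.Ifc
import Pool.Agent.Lib.MP_16ef92_ag.FT.Var

/-! The final assembly. -/

set_option autoImplicit false
set_option linter.unusedSectionVars false
set_option linter.unusedVariables false

namespace Pool.Agent.Lib.MP_16ef92_ag.FT

open Polynomial Filter AlgebraicGeometry RS GV AL

noncomputable section

variable {F : Type} [Field F] [Fintype F] {n : ℕ} {A B C : Fin n → F[X]} {D : F[X]} {l : ℕ}
  [hl : Fact l.Prime]

theorem good_bar [Bg] (p : ℕ) [CharP F p] [CharP OO p] : Good (AlgebraicClosure F) :=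
  (good_of_countable p (CharP.cast_eq_zero F p) (CharP.char_ne_zero_of_finite F p)).int
    (a := algebraMap F _) fun x => Algebra.IsIntegral.isIntegral x

theorem good_Rb [Bg] (p : ℕ) [CharP F p] [CharP OO p] : Good (Rb A B C D) := by
  obtain ⟨φ, -, -, h⟩ := exists_fib_Rb A B C D
  have h1 : Good (AlgebraicClosure F)[X] := (good_bar (F := F) p).ft
    (RingHom.finiteType_algebraMap.2 inferInstance)
  have h2 : Good (Bb A B C D) := h1.et (et_away _)
  exact h2.ft h.ft

theorem prim_bar {m : ℕ} (h : (m : F) ≠ 0) : ∃ ζ : AlgebraicClosure F, IsPrimitiveRoot ζ m :=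
  have : NeZero (m : AlgebraicClosure F) := ⟨by
    rw [← map_natCast (algebraMap F _)]
    exact (_root_.map_ne_zero _).2 h⟩
  HasEnoughRootsOfUnity.exists_primitiveRoot _ m

theorem dvd_bad (i : Fin n) : A i * B i * (A i - B i) * (D * C i) ∣ bad A B C * D := by
  rw [mul_comm D, ← mul_assoc]
  exact mul_dvd_mul_right
    (Finset.dvd_prod_of_mem (fun i => A i * B i * (A i - B i) * C i) (Finset.mem_univ i)) D

theorem semi_frob {R : Type} [CommRing R] [Algebra F R] {q j r : ℕ}
    (h : SemiOn l q j r (spI (frR R F))) : SemiOn l q j r (EL.frob F R) := h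

variable [Clos F] [hq : Fact (Odd (Fintype.card F))]

theorem semi_all {R : Type} [CommRing R] [Algebra F R] (ι : tot A B C D ≃ₐ[F] R)
    (h0 : bad A B C * D ≠ 0) (hF : (l : F) ≠ 0) (hS : SimAll A B C (bad A B C) D)
    (hL : ∀ [Bg] [CharP OO (ringChar F)] (j : ℕ), Lvl A B C D l R j) (j : ℕ) :
    SemiOn l (Fintype.card F) j (n.choose (2 * j - 1)) (EL.frob F R) := by
  have hp : Fact (ringChar F).Prime := ⟨CharP.char_is_prime F _⟩
  obtain ⟨_, _⟩ := exists_bg (ringChar F)
  have h1 : (l : OO) ≠ 0 := fun e => hF ((CharP.cast_eq_zero_iff F (ringChar F) l).2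
    ((CharP.cast_eq_zero_iff OO (ringChar F) l).1 e))
  have hR : Good (Bar R F) := (good_Rb (A := A) (B := B) (C := C) (D := D) (ringChar F)).ft
    (RingHom.FiniteType.of_surjective (barE ι).toRingHom (barE ι).surjective)
  refine semi_frob ?_
  cases j with
  | zero =>
    have := dom_Rb A B C D h0
    have : IsDomain (Bar R F) := (barE ι).symm.toMulEquiv.isDomain _
    rw [Nat.choose_zero_right]
    refine semiOn_zero hR (frR _ F) h1 _ fun m => ?_
    obtain ⟨ζ, hζ⟩ := prim_bar (F := F) (m := l ^ m) (by exact_mod_cast pow_ne_zero m hF)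
    exact ⟨_, hζ.map_of_injective (barL _ F).injective, by rw [frR_L, map_pow]⟩
  | succ j =>
    have hq0 : (Fintype.card F : ℤ_[l]) ≠ 0 := Nat.cast_ne_zero.2 Fintype.card_ne_zero
    obtain ⟨u, hu⟩ : ∃ u : ℤ_[l], u * (Fintype.card F : ℤ_[l]) ^ j = 1 := by
      refine (IsUnit.pow j (PadicInt.isUnit_iff.2 (PadicInt.norm_natCast_eq_one_iff.2
        ((Nat.Prime.coprime_iff_not_dvd hl.out).2 fun e => hF ?_)))).exists_left_inv
      obtain ⟨k, -, hk⟩ := FiniteField.card F (ringChar F)
      rw [(Nat.prime_dvd_prime_iff_eq hl.out hp.out).1 (hl.out.dvd_of_dvd_pow (hk ▸ e))]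
      exact CharP.cast_eq_zero F _
    choose T _ using fun i => (exists_TM (ne_zero_of_dvd_ne_zero h0 (dvd_bad i))).choose_spec l hF
    let e := fun S : Sb n (2 * j + 1) => (Fintype.equivFin (S.1 → Fin 2)).symm
    obtain ⟨s, k, hs, hk, h2⟩ := hL j T _ e u hu
    have hC := fun S : Sb n (2 * j + 1) =>
      tm_cr hF h0 (fun i : S.1 => dvd_bad i.1) (e S) fun i => T i
    have := semiOn_of_rlC (h2_fam hF) hC (fam_inv s) (fun S => psi_geo _ s)
      (fun S => (zi_tm hF h0 (fun i : S.1 => dvd_bad i.1) (e S) (fun i => T i) hs).2)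
      (fun S => hS S.1 j S.2 l hF _ (e S) (fun i => T i) s hs u hu (hC S)) hq0 hR (frR _ F) h1 _
      (j + 1) hk h2
    rwa [Fintype.card_finset_len, Fintype.card_fin] at this

omit [Clos F] hq in
/-- The main theorem, given the relation at each level. -/
theorem final_of (hq : Odd (Fintype.card F)) (hsq : Squarefree (bad A B C))
    (hA : ∀ i, 0 < (A i).natDegree) (hB : ∀ i, (B i).natDegree = (A i).natDegree)
    (hC : ∀ i, (A i - B i).natDegree = (A i).natDegree)
    (hL : ∀ [Clos F] [Fact (Odd (Fintype.card F))] [Bg] [CharP OO (ringChar F)] (D : F[X]),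
      Squarefree (bad A B C * D) → 0 < D.natDegree → ∀ (l : ℕ) [Fact l.Prime], (l : F) ≠ 0 →
      ∀ j, Lvl A B C D l (var A B C D) j) :
    Tendsto (fun d : ℕ => (({D : F[X] | D.natDegree = d ∧ Squarefree (bad A B C * D) ∧
      SmoothOfRelativeDimension (n + 1)
        (Spec.map (CommRingCat.ofHom (algebraMap F (var A B C D)))) ∧
      ∀ (l : ℕ) [Fact l.Prime], (l : F) ≠ 0 → ∀ j : ℕ,
        SemiOn l (Fintype.card F) j (n.choose (2 * j - 1)) (EL.frob F (var A B C D))}.ncard : ℝ)) /
      ({D : F[X] | D.natDegree = d ∧ Squarefree (bad A B C * D)}.ncard : ℝ)) atTop (nhds 1) := by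
  have : Fact (Odd (Fintype.card F)) := ⟨hq⟩
  let L := separableClosure (RatFunc F) (AlgebraicClosure (RatFunc F))
  let : Clos F := ⟨L, inferInstance, Classical.decEq _, inferInstance, inferInstance, inferInstance,
    inferInstance⟩
  refine GV.final hsq dvd_rfl hA hB hC fun D h1 h2 h3 => ?_
  obtain ⟨ι⟩ := exists_var A B C D
  refine ⟨smooth_congr ι (tot_smooth two_neF A B C D), fun l _ hF j => ?_⟩
  exact semi_all ι h1.ne_zero hF h3 (fun j => hL D h1 h2 l hF j) j

end

end Pool.Agent.Lib.MP_16ef92_ag.FT
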