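import Mathlib
import Pool.Agent.Lib.MP_16ef92_ag.FT.Top
import Pool.Agent.Lib.MP_16ef92_ag.TP.Lvl0
import Pool.Agent.Lib.MP_16ef92_ag.TP.Tw3
import Pool.Agent.Lib.MP_16ef92_ag.LH.Main
import Pool.Agent.Lib.MP_16ef92_ag.CV.Unr

/-! The relation at each level, from the tower. -/

set_option autoImplicit false
set_option linter.unusedSectionVars false
set_option linter.unusedVariables false

namespace Pool.Agent.Lib.MP_16ef92_ag.FT

open Polynomial Filter AlgebraicGeometry RS GV AL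

noncomputable section

theorem lhs [Bg] (p : ℕ) [Fact p.Prime] [CharP OO p] {m : ℕ} [NeZero m] (hC : LH.CrvH m) :
    TP.LHS m :=
  ⟨fun _ _ _ _ _ _ _ _ _ _ _ _ _ h hP => h.bc hP,
    fun _ _ _ _ _ _ hR h G hG => LH.lh_zero p hC hR h G hG,
    fun _ _ _ _ _ _ hR h q G hG ξ => LH.lh_succ p hC hR h q G hG ξ⟩

variable {F : Type} [Field F] [Fintype F] {n : ℕ} {A B C : Fin n → F[X]}

theorem frR_tmul {R : Type} [CommRing R] [Algebra F R] (c : AlgebraicClosure F) (r : R) :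
    frR R F (c ⊗ₜ[F] r) = (c ^ Fintype.card F) ⊗ₜ[F] r := rfl

theorem lvl [Clos F] [hq : Fact (Odd (Fintype.card F))] [Bg] [CharP OO (ringChar F)] {D : F[X]}
    (hA : ∀ i, 0 < (A i).natDegree) (hsq : Squarefree (bad A B C * D))
    (l : ℕ) [hl : Fact l.Prime] (hF : (l : F) ≠ 0) {R : Type} [CommRing R] [Algebra F R]
    (ι : tot A B C D ≃ₐ[F] R) (j : ℕ) : Lvl A B C D l R j := by
  intro T d e u hu
  have hp : Fact (ringChar F).Prime := ⟨CharP.char_is_prime F _⟩
  have : Fact (bad A B C * D ≠ 0) := ⟨hsq.ne_zero⟩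
  have h1 : (l : OO) ≠ 0 := fun e => hF ((CharP.cast_eq_zero_iff F (ringChar F) l).2
    ((CharP.cast_eq_zero_iff OO (ringChar F) l).1 e))
  obtain ⟨s, hs⟩ := TP.exists_fr (F := F)
  obtain ⟨φ, x, y, h2, h3⟩ := TP.exists_prs A B C D
  obtain ⟨h4, h5, h6⟩ := h3 s (frR (tot A B C D) F : Rb A B C D →+* Rb A B C D) hs frR_tmul
  obtain ⟨Z, _, E, e1, e2, e3⟩ := TP.exists_dat (X := Bar R F) (A := A) (B := B)
    (E := fun i => D * C i) (prs_congr (X := Rb A B C D) h2 (barE ι))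
  replace h4 : (frR R F : Bar R F →+* Bar R F).comp E.φ = E.φ.comp (TP.actL _ (Geo F) s) := by
    rw [e1]
    exact RingHom.ext fun r => (barE_fr ι _).trans (congrArg (barE ι) (RingHom.congr_fun h4 r))
  replace h5 : ∀ i, (frR R F : Bar R F →+* Bar R F) (E.x i) = E.x i := fun i => by
    rw [e2]
    exact (barE_fr ι _).trans (congrArg (barE ι) (h5 i))
  replace h6 : ∀ i, (frR R F : Bar R F →+* Bar R F) (E.y i) = E.y i := fun i => by
    rw [e3]
    exact (barE_fr ι _).trans (congrArg (barE ι) (h6 i))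
  let e' := fun S : Sb n (2 * j + 1 + 1) => (Fintype.equivFin (S.1 → Fin 2)).symm
  have h8 : ∀ S : Sb n (2 * j + 1 + 1), ∃ c, c ≠ 0 ∧ ND.Kil (tmS T S.1 (e' S)) c := fun S => by
    obtain ⟨i, hi⟩ := Finset.card_pos.1 (by rw [S.2]; exact Nat.succ_pos _ : 0 < S.1.card)
    refine ND.tm_kil hF (hsq.squarefree_of_dvd (mul_dvd_mul_right ?_ D)) (i₀ := ⟨i, hi⟩) (hA i)
      (e' S) (fun i : S.1 => T i) hs
    rw [Finset.prod_coe_sort S.1 fun i => A i * B i * (A i - B i) * C i]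
    exact Finset.prod_dvd_prod_of_subset _ _ (fun i => A i * B i * (A i - B i) * C i)
      (Finset.subset_univ _)
  choose c h9 h10 using h8
  refine ⟨s, ∏ S, c S, hs, Finset.prod_ne_zero_iff.2 fun S _ => h9 S, fun m _ => ?_⟩
  have : NeZero (l ^ m) := ⟨pow_ne_zero _ hl.out.ne_zero⟩
  have h7 := CV.crvH (ringChar F) h1 m
  exact E.lvl (ringChar F) hF (lhs (ringChar F) h7) h7 dvd_bad T hs h4 h5 h6 e e' h10 hu
    _ fun ξ => rfl

/-- The main theorem. -/
theorem main (hq : Odd (Fintype.card F)) (hsq : Squarefree (bad A B C))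
    (hA : ∀ i, 0 < (A i).natDegree) (hB : ∀ i, (B i).natDegree = (A i).natDegree)
    (hAB : ∀ i, (A i - B i).natDegree = (A i).natDegree) :
    Tendsto (fun d : ℕ => (({D : F[X] | D.natDegree = d ∧ Squarefree (bad A B C * D) ∧
      SmoothOfRelativeDimension (n + 1)
        (Spec.map (CommRingCat.ofHom (algebraMap F (var A B C D)))) ∧
      ∀ (l : ℕ) [Fact l.Prime], (l : F) ≠ 0 → ∀ j : ℕ,
        SemiOn l (Fintype.card F) j (n.choose (2 * j - 1)) (EL.frob F (var A B C D))}.ncard : ℝ)) /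
      ({D : F[X] | D.natDegree = d ∧ Squarefree (bad A B C * D)}.ncard : ℝ)) atTop (nhds 1) :=
  final_of hq hsq hA hB hAB fun D h _ l _ hF j =>
    (exists_var A B C D).elim fun ι => lvl hA h l hF ι j

end

end Pool.Agent.Lib.MP_16ef92_ag.FT
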