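import Mathlib
import Pool.Agent.Lib.MP_16ef92_ag.FT.Mu
import Pool.Agent.Lib.MP_16ef92_ag.FT.Var

/-! A check of the normalisation: the action on global sections of the roots of unity. -/

set_option autoImplicit false
set_option linter.unusedSectionVars false
set_option linter.unusedVariables false
set_option backward.isDefEq.respectTransparency false

namespace Pool.Agent.Lib.MP_16ef92_ag.FT

open CategoryTheory AlgebraicGeometry Opposite Abelian ET EL Polynomial

noncomputable section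

/-- The group `H^0(Spec R, μ_n)` is the group of `n`-th roots of unity of `R`, and `Spec σ` acts on
it through `σ`. -/
theorem h0_act (R : Type) [CommRing R] {n : ℕ} (hn : n ≠ 0) :
    ∃ v : (mu (Xs R) n).H 0 → R, Function.Injective v ∧ (∀ x y, v (x + y) = v x * v y) ∧
      (∀ ζ, ζ ^ n = 1 ↔ ∃ x, v x = ζ) ∧ ∀ (σ : R ≃+* R) x, v (actH (spI σ) n 0 x) = σ (v x) := by
  let e : (zz (Xs R) ⟶ mu (Xs R) n) ≃+ (mu (Xs R) n).H 0 := Ext.addEquiv₀.symm
  let w : (zz (Xs R) ⟶ mu (Xs R) n) → rootsOfUnity n Γ(Xs R, ⊤) := fun z => sec (tmT R) _ z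
  let g := (Scheme.ΓSpecIso (.of R)).commRingCatIsoToRingEquiv
  refine ⟨fun x => g (w (e.symm x)).1.1, fun x y h => e.symm.injective ((sec (tmT R) _).injective
    (Subtype.ext (Units.ext (g.injective h)))), fun x y => ?_, fun ζ => ⟨fun h => ?_, ?_⟩,
    fun σ x => ?_⟩
  · beta_reduce
    rw [map_add, ← map_mul]
    exact congrArg (fun t : rootsOfUnity n Γ(Xs R, ⊤) => g t.1.1) 
      (map_add (sec (tmT R) (mu (Xs R) n)) (e.symm x) (e.symm y))
  · let u : rootsOfUnity n Γ(Xs R, ⊤) :=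
      ⟨Units.ofPowEqOne (g.symm ζ) n (by rw [← map_pow, h, map_one]) hn,
        Units.ext (by rw [Units.val_pow_eq_pow_val, Units.val_ofPowEqOne, ← map_pow, h, map_one,
          Units.val_one])⟩
    refine ⟨e ((sec (tmT R) _).symm u), ?_⟩
    beta_reduce
    rw [e.symm_apply_apply]
    exact (congrArg (fun t : rootsOfUnity n Γ(Xs R, ⊤) => g t.1.1)
      ((sec (tmT R) (mu (Xs R) n)).apply_symm_apply u)).trans (g.apply_symm_apply ζ)
  · rintro ⟨x, rfl⟩
    rw [← map_pow]
    exact (congrArg (fun t : Γ(Xs R, ⊤)ˣ => g t.1) (w (e.symm x)).2).trans (map_one g)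
  · obtain ⟨z, rfl⟩ := e.surjective x
    have h1 : actH (spI σ) n 0 (e z) =
        e ((zzMap (spI σ) ≫ (push (spI σ)).map z) ≫ muMap (spI σ) n) :=
      tact_mk (push (spI σ)) (zzMap (spI σ)) (muMap (spI σ) n) z
    beta_reduce
    rw [h1, e.symm_apply_apply, e.symm_apply_apply]
    refine (congrArg (fun t : rootsOfUnity n Γ(Xs R, ⊤) => g t.1.1)
      (sec_push (tmT R) (spI σ) z)).trans ?_
    have h2 := evp_spm (σ : R →+* R) (𝟙 (Xs R)) (w z).1.1
    rw [Category.comp_id] at h2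
    refine Eq.trans ?_ h2
    change g ((𝟙 _ ≫ spm (σ : R →+* R)).appTop _) = _
    rw [Category.id_comp]
    rfl

/-- On the geometric fibre product `H^0(μ_m)` has an element of order `m`, and the Frobenius acts
on it as multiplication by `q`. -/
theorem h0_frob {F : Type} [Field F] [Fintype F] {n : ℕ} (A B C : Fin n → F[X]) (D : F[X])
    (h : bad A B C * D ≠ 0) {m : ℕ} (hm : (m : F) ≠ 0) :
    (∃ x : (mu (bar F (var A B C D)) m).H 0, addOrderOf x = m) ∧
      ∀ x, actH (frob F (var A B C D)) m 0 x = Fintype.card F • x := by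
  have hn : m ≠ 0 := fun e => hm (by rw [e, Nat.cast_zero])
  have := NeZero.mk hn
  have := dom_Rb A B C D h
  obtain ⟨ι⟩ := exists_var A B C D
  have : IsDomain (Bar (var A B C D) F) := (barE ι).symm.toMulEquiv.isDomain _
  have : NeZero (m : AlgebraicClosure F) := ⟨by
    rw [← map_natCast (algebraMap F _)]
    exact (_root_.map_ne_zero _).2 hm⟩
  obtain ⟨ζ, hζ⟩ := HasEnoughRootsOfUnity.exists_primitiveRoot (AlgebraicClosure F) m
  have h1 := hζ.map_of_injective (barL (var A B C D) F).injective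
  obtain ⟨v, h2, h3, h4, h5⟩ := h0_act (Bar (var A B C D) F) hn
  have h6 : v 0 = 1 := by
    have h7 := (h4 _).2 ⟨0, rfl⟩
    refine mul_left_cancel₀ (fun e => ?_ : v 0 ≠ 0) (by rw [← h3, add_zero, mul_one])
    rw [e, zero_pow hn] at h7
    exact zero_ne_one h7
  have h7 : ∀ (k : ℕ) x, v (k • x) = v x ^ k := fun k x => by
    induction k with
    | zero => rw [zero_smul, h6, pow_zero]
    | succ k ih => rw [succ_nsmul, h3, ih, pow_succ]
  refine ⟨?_, fun x => h2 ((h5 (frR _ F) x).trans ?_)⟩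
  · obtain ⟨x, hx⟩ := (h4 _).1 h1.pow_eq_one
    refine ⟨x, Nat.dvd_antisymm (addOrderOf_dvd_of_nsmul_eq_zero (h2 ?_)) (h1.dvd_of_pow_eq_one _ ?_)⟩
    · rw [h7, hx, h6, h1.pow_eq_one]
    · rw [← hx, ← h7, addOrderOf_nsmul_eq_zero, h6]
  · obtain ⟨a, -, ha⟩ := h1.eq_pow_of_pow_eq_one ((h4 _).2 ⟨x, rfl⟩)
    rw [h7, ← ha, map_pow, frR_L, map_pow, ← pow_mul, ← pow_mul, mul_comm a]

end

end Pool.Agent.Lib.MP_16ef92_ag.FT
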